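import Pool.Agent.V11122.Cap.Quad

set_option autoImplicit false

/-! A dual vector with controlled signs on the upper faces. -/

namespace Pool.Agent.V11122.Cap

open Pool.Agent.V11122.Sink Filter Topology
open Pool.Agent.V11122.Sym (S Dt ext3 co InD EV OC CC Ad OnE nz DD W)

variable {V : Type} {G : SimpleGraph V} {p : V → E3} {F : V → V → V → Prop} {z : V → ℝ}
  {n1 n2 n3 : V}

/-- one of the corners has positive height -/
def UpZ (z : V → ℝ) (a b c : V) : Prop := 0 < z a ∨ 0 < z b ∨ 0 < z c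

theorem UpZ.rot {a b c : V} (h : UpZ z a b c) : UpZ z b c a := by
  rcases h with h | h | h
  · exact Or.inr (Or.inr h)
  · exact Or.inl h
  · exact Or.inr (Or.inl h)

structure Ctx (G : SimpleGraph V) (p : V → E3) (F : V → V → V → Prop) (z : V → ℝ)
    (n1 n2 n3 : V) : Prop where
  Φ : Fan G p F
  T : Tilt G p
  hz : ∀ a b c, F a b c → 0 < DD p z a b c
  un : ∀ a b, G.Adj a b → 0 < z a → 0 ≤ z b
  hn : F n1 n2 n3
  hN : OC p n1 n2 n3 north

theorem Ctx.up_nonneg (C : Ctx G p F z n1 n2 n3) {a b c : V} (h : F a b c)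
    (hu : UpZ z a b c) : 0 ≤ z a ∧ 0 ≤ z b ∧ 0 ≤ z c := by
  have ab := C.Φ.ab _ _ _ h
  have bc := C.Φ.bc h
  have ca := C.Φ.ca h
  rcases hu with h | h | h
  · exact ⟨h.le, C.un _ _ ab h, C.un _ _ ca.symm h⟩
  · exact ⟨C.un _ _ ab.symm h, h.le, C.un _ _ bc h⟩
  · exact ⟨C.un _ _ ca h, C.un _ _ bc.symm h, h.le⟩

theorem Ctx.reduce [Finite V] (C : Ctx G p F z n1 n2 n3) {Q : V → V → V → Prop}
    (hrot : ∀ a b c, Q b c a → Q a b c)
    (h1 : ∀ a b c, MidF F p 1 a b c → UpZ z a b c → Q a b c)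
    (h2 : ∀ a b c, MidF F p (-1) a b c → UpZ z a b c → Q a b c) :
    ∀ a b c, F a b c → UpZ z a b c → ¬ OC p a b c north → Q a b c := by
  intro a b c hF hu hN
  obtain ⟨z1, z2, z3⟩ := C.up_nonneg hF hu
  rcases C.Φ.mid_cases C.T hF with h | ⟨k1, k2, k3⟩ | ⟨τ, hτ, hm⟩
  · exact absurd h hN
  · exfalso
    have := C.hz a b c hF
    unfold Sym.DD at this
    have m1 := mul_nonpos_of_nonneg_of_nonpos z1 k2.le
    have m2 := mul_nonpos_of_nonneg_of_nonpos z2 k3.le
    have m3 := mul_nonpos_of_nonneg_of_nonpos z3 k1.le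
    linarith
  · have all : ∀ x y w, MidF F p τ x y w → UpZ z x y w → Q x y w := by
      rcases hτ with rfl | rfl
      · exact h1
      · exact h2
    rcases hm with hm | hm | hm
    · exact all _ _ _ hm hu
    · exact hrot _ _ _ (all _ _ _ hm hu.rot)
    · exact hrot _ _ _ (hrot _ _ _ (all _ _ _ hm hu.rot.rot))

theorem Ctx.north_rot (C : Ctx G p F z n1 n2 n3) {Q : V → V → V → Prop}
    (hrot : ∀ a b c, Q b c a → Q a b c) (h : Q n1 n2 n3) :
    ∀ a b c, F a b c → OC p a b c north → Q a b c := by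
  intro a b c hF hN
  rcases C.Φ.same _ _ _ _ _ _ C.hn hF _ C.hN hN with ⟨rfl, rfl, rfl⟩ | ⟨rfl, rfl, rfl⟩ |
    ⟨rfl, rfl, rfl⟩
  · exact h
  · exact hrot _ _ _ (hrot _ _ _ h)
  · exact hrot _ _ _ h

theorem Ctx.npos (C : Ctx G p F z n1 n2 n3) :
    0 < S (p n1) (p n2) ∧ 0 < S (p n2) (p n3) ∧ 0 < S (p n3) (p n1) :=
  oc_north_pos (C.Φ.pos _ _ _ C.hn) C.hN

theorem Ctx.nup (C : Ctx G p F z n1 n2 n3) : UpZ z n1 n2 n3 := by
  obtain ⟨k1, k2, k3⟩ := C.npos
  by_contra hcon
  unfold UpZ at hcon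
  push Not at hcon
  obtain ⟨z1, z2, z3⟩ := hcon
  have := C.hz _ _ _ C.hn
  unfold Sym.DD at this
  have m1 := mul_nonpos_of_nonpos_of_nonneg z1 k2.le
  have m2 := mul_nonpos_of_nonpos_of_nonneg z2 k3.le
  have m3 := mul_nonpos_of_nonpos_of_nonneg z3 k1.le
  linarith

theorem Ctx.nW (C : Ctx G p F z n1 n2 n3) : 0 < W p n1 n2 n3 := by
  obtain ⟨k1, k2, k3⟩ := C.npos
  exact inv_pos.2 (mul_pos (mul_pos k1 k2) k3)

theorem W_DD_rot (g k : V → ℝ) (a b c : V) :
    W p b c a * DD p g b c a * DD p k b c a = W p a b c * DD p g a b c * DD p k a b c := by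
  rw [Sym.W_rot, Sym.DD_rot, Sym.DD_rot k]

/-- middle vertices of lower type lie strictly above the plane -/
theorem Ctx.mid_pos (C : Ctx G p F z n1 n2 n3) {m b c : V} (h : MidF F p (-1) m b c)
    (hu : UpZ z m b c) : 0 < z m := by
  obtain ⟨z1, z2, z3⟩ := C.up_nonneg h.f hu
  have h0 := C.hz _ _ _ h.f
  have h1 := h.s1
  have h2 := h.s2
  have h3 := h.s3
  unfold Sym.DD at h0
  have m2 := mul_nonpos_of_nonneg_of_nonpos z2 (by linarith : S (p c) (p m) ≤ 0)
  have m3 := mul_nonpos_of_nonneg_of_nonpos z3 (by linarith : S (p m) (p b) ≤ 0)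
  have m4 : 0 < z m * S (p b) (p c) := by linarith
  exact (pos_iff_pos_of_mul_pos m4).2 (by linarith)

open Classical in
theorem Ctx.nonneg [Fintype V] (C : Ctx G p F z n1 n2 n3) {k : V → ℝ}
    (hk : ∀ m b c, MidF F p 1 m b c → UpZ z m b c → DD p k m b c = 0)
    (hk' : DD p k n1 n2 n3 ≤ 0) :
    ∀ m b c, MidF F p (-1) m b c → UpZ z m b c → 0 ≤ DD p k m b c := by
  intro m0 b0 c0 hm0 hu0
  by_contra hneg
  push Not at hneg
  let P : V → Prop := fun v => ∃ b c, MidF F p (-1) v b c ∧ UpZ z v b c ∧ DD p k v b c < 0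
  let ψ : V → ℝ := fun v => if P v then z v else 0
  have hPz : ∀ v, P v → 0 < z v := by
    rintro v ⟨b, c, h1, h2, -⟩
    exact C.mid_pos h1 h2
  have hψ0 : ∀ v, 0 ≤ ψ v := by
    intro v
    simp only [ψ]
    split_ifs with h
    · exact (hPz v h).le
    · exact le_rfl
  have hψz : ∀ v, 0 ≤ z v → ψ v ≤ z v := by
    intro v hv
    simp only [ψ]
    split_ifs with h
    · exact le_rfl
    · exact hv
  have hψd : ∀ v, z v ≤ 0 → ψ v = 0 := by
    intro v hv
    simp only [ψ]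
    rw [if_neg]
    intro h
    have := hPz v h
    linarith
  have hmid : ∀ m b c, MidF F p (-1) m b c → UpZ z m b c →
      W p m b c * DD p ψ m b c * DD p k m b c ≤ 0 ∧
      (DD p k m b c < 0 → W p m b c * DD p ψ m b c * DD p k m b c < 0) := by
    intro m b c hm hu
    obtain ⟨z1, z2, z3⟩ := C.up_nonneg hm.f hu
    have hw := hm.W (Or.inr rfl)
    have s1 := hm.s1
    have s2 := hm.s2
    have s3 := hm.s3
    have strictc : DD p k m b c < 0 → W p m b c * DD p ψ m b c * DD p k m b c < 0 := by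
      intro hlt
      have e : ψ m = z m := by
        simp only [ψ]
        rw [if_pos ⟨b, c, hm, hu, hlt⟩]
      have h1 : DD p z m b c ≤ DD p ψ m b c := by
        unfold Sym.DD
        rw [e]
        have := mul_le_mul_of_nonpos_right (hψz b z2) (by linarith : S (p c) (p m) ≤ 0)
        have := mul_le_mul_of_nonpos_right (hψz c z3) (by linarith : S (p m) (p b) ≤ 0)
        linarith
      have h2 := C.hz _ _ _ hm.f
      have h3 : 0 < W p m b c * DD p ψ m b c := mul_pos (by linarith) (by linarith)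
      exact mul_neg_of_pos_of_neg h3 hlt
    refine ⟨?_, strictc⟩
    rcases lt_or_ge (DD p k m b c) 0 with hlt | hge
    · exact (strictc hlt).le
    · have e : ψ m = 0 := by
        simp only [ψ]
        rw [if_neg]
        rintro ⟨b', c', hm', -, hlt⟩
        obtain ⟨e1, e2⟩ := hm.uniq C.Φ hm'
        rw [e1, e2] at hlt
        linarith
      have h1 : DD p ψ m b c ≤ 0 := by
        unfold Sym.DD
        rw [e]
        have := mul_nonpos_of_nonneg_of_nonpos (hψ0 b) (by linarith : S (p c) (p m) ≤ 0)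
        have := mul_nonpos_of_nonneg_of_nonpos (hψ0 c) (by linarith : S (p m) (p b) ≤ 0)
        linarith
      have h2 : W p m b c * DD p ψ m b c ≤ 0 :=
        mul_nonpos_of_nonneg_of_nonpos (by linarith) h1
      exact mul_nonpos_of_nonpos_of_nonneg h2 hge
  have hup : ∀ a b c, F a b c → UpZ z a b c → ¬ OC p a b c north →
      W p a b c * DD p ψ a b c * DD p k a b c ≤ 0 := by
    refine C.reduce (Q := fun a b c => W p a b c * DD p ψ a b c * DD p k a b c ≤ 0) ?_ ?_ ?_
    · intro a b c h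
      rwa [W_DD_rot] at h
    · intro a b c h hu
      rw [hk a b c h hu, mul_zero]
    · intro a b c h hu
      exact (hmid a b c h hu).1
  have hnorth : ∀ a b c, F a b c → OC p a b c north →
      W p a b c * DD p ψ a b c * DD p k a b c ≤ 0 := by
    refine C.north_rot (Q := fun a b c => W p a b c * DD p ψ a b c * DD p k a b c ≤ 0) ?_ ?_
    · intro a b c h
      rwa [W_DD_rot] at h
    · obtain ⟨k1, k2, k3⟩ := C.npos
      have h1 : 0 ≤ DD p ψ n1 n2 n3 := by
        unfold Sym.DD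
        have := mul_nonneg (hψ0 n1) k2.le
        have := mul_nonneg (hψ0 n2) k3.le
        have := mul_nonneg (hψ0 n3) k1.le
        linarith
      exact mul_nonpos_of_nonneg_of_nonpos (mul_nonneg C.nW.le h1) hk'
  have hterm : ∀ a b c, F a b c → W p a b c * DD p ψ a b c * DD p k a b c ≤ 0 := by
    intro a b c h
    by_cases hu : UpZ z a b c
    · by_cases hN : OC p a b c north
      · exact hnorth a b c h hN
      · exact hup a b c h hu hN
    · have : DD p ψ a b c = 0 := by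
        unfold UpZ at hu
        push Not at hu
        unfold Sym.DD
        rw [hψd a hu.1, hψd b hu.2.1, hψd c hu.2.2]; ring
      rw [this]; simp
  have hq := C.Φ.quad C.T ψ k
  obtain ⟨h1, -⟩ := Sym.all_zero
    (f := fun x y w => if F x y w then W p x y w * DD p ψ x y w * DD p k x y w else 0)
    (r := 0) (by
      intro x y w
      by_cases h : F x y w
      · rw [if_pos h]; exact hterm x y w h
      · rw [if_neg h]) le_rfl (by rw [add_zero]; exact hq)
  have := h1 m0 b0 c0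
  rw [if_pos hm0.f] at this
  have h2 := (hmid m0 b0 c0 hm0 hu0).2 hneg
  linarith

theorem le_sum3 [Fintype V] {f : V → V → V → ℝ} (hf : ∀ x y w, 0 ≤ f x y w) (a b c : V) :
    f a b c ≤ ∑ x, ∑ y, ∑ w, f x y w := by
  have h1 : f a b c ≤ ∑ w, f a b w :=
    Finset.single_le_sum (f := fun w => f a b w) (fun w _ => hf a b w) (Finset.mem_univ c)
  have h2 : (∑ w, f a b w) ≤ ∑ y, ∑ w, f a y w :=
    Finset.single_le_sum (f := fun y => ∑ w, f a y w)
      (fun y _ => Finset.sum_nonneg fun w _ => hf a y w) (Finset.mem_univ b)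
  have h3 : (∑ y, ∑ w, f a y w) ≤ ∑ x, ∑ y, ∑ w, f x y w :=
    Finset.single_le_sum (f := fun x => ∑ y, ∑ w, f x y w)
      (fun x _ => Finset.sum_nonneg fun y _ => Finset.sum_nonneg fun w _ => hf x y w)
      (Finset.mem_univ a)
  linarith

open Classical in
theorem Ctx.bound [Fintype V] (C : Ctx G p F z n1 n2 n3) {k : V → ℝ}
    (hk : ∀ m b c, MidF F p 1 m b c → UpZ z m b c → DD p k m b c = 0)
    (hk' : DD p k n1 n2 n3 ≤ 0) :
    ∀ a b c, F a b c → UpZ z a b c → ¬ OC p a b c north →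
      W p a b c * DD p z a b c * DD p k a b c ≤ (Fintype.card V : ℝ) ^ 3 *
        (W p n1 n2 n3 * DD p z n1 n2 n3 * (-DD p k n1 n2 n3)) := by
  set X : ℝ := W p n1 n2 n3 * DD p z n1 n2 n3 * (-DD p k n1 n2 n3) with hX
  have hX0 : 0 ≤ X :=
    mul_nonneg (mul_nonneg C.nW.le (C.hz _ _ _ C.hn).le) (by linarith)
  let ψ : V → ℝ := fun v => max (z v) 0
  have hψu : ∀ a b c, F a b c → UpZ z a b c → DD p ψ a b c = DD p z a b c := by
    intro a b c h hu
    obtain ⟨z1, z2, z3⟩ := C.up_nonneg h hu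
    unfold Sym.DD
    simp only [ψ]
    rw [max_eq_left z1, max_eq_left z2, max_eq_left z3]
  have hψd : ∀ a b c, ¬ UpZ z a b c → DD p ψ a b c = 0 := by
    intro a b c hu
    unfold UpZ at hu
    push Not at hu
    unfold Sym.DD
    simp only [ψ]
    rw [max_eq_right hu.1, max_eq_right hu.2.1, max_eq_right hu.2.2]; ring
  have hnn := C.nonneg hk hk'
  have hup : ∀ a b c, F a b c → UpZ z a b c → ¬ OC p a b c north →
      0 ≤ W p a b c * DD p z a b c * DD p k a b c := by
    refine C.reduce (Q := fun a b c => 0 ≤ W p a b c * DD p z a b c * DD p k a b c) ?_ ?_ ?_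
    · intro a b c h
      rwa [W_DD_rot] at h
    · intro a b c h hu
      rw [hk a b c h hu, mul_zero]
    · intro a b c h hu
      have hw := h.W (Or.inr rfl)
      exact mul_nonneg (mul_nonneg (by linarith) (C.hz _ _ _ h.f).le) (hnn a b c h hu)
  have hnorth : ∀ a b c, F a b c → OC p a b c north → UpZ z a b c ∧
      W p a b c * DD p z a b c * DD p k a b c = -X := by
    refine C.north_rot (Q := fun a b c => UpZ z a b c ∧
      W p a b c * DD p z a b c * DD p k a b c = -X) ?_ ?_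
    · intro a b c h
      rw [W_DD_rot] at h
      exact ⟨h.1.rot.rot, h.2⟩
    · refine ⟨C.nup, ?_⟩
      rw [hX]; ring
  let f : V → V → V → ℝ := fun a b c =>
    if F a b c then W p a b c * DD p ψ a b c * DD p k a b c else 0
  have hf : ∀ a b c, 0 ≤ f a b c + X := by
    intro a b c
    simp only [f]
    by_cases h : F a b c
    · rw [if_pos h]
      by_cases hu : UpZ z a b c
      · rw [hψu a b c h hu]
        by_cases hN : OC p a b c north
        · rw [(hnorth a b c h hN).2]; linarith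
        · have := hup a b c h hu hN; linarith
      · rw [hψd a b c hu]; simpa using hX0
    · rw [if_neg h]; simpa using hX0
  intro a b c h hu hN
  have h1 := le_sum3 hf a b c
  have h2 : (∑ x, ∑ y, ∑ w, (f x y w + X)) = (Fintype.card V : ℝ) ^ 3 * X := by
    have hq : (∑ x, ∑ y, ∑ w, f x y w) = 0 := C.Φ.quad C.T ψ k
    simp only [Finset.sum_add_distrib, hq]
    simp only [Finset.sum_const, Finset.card_univ, nsmul_eq_mul]
    ring
  rw [h2] at h1
  have h3 : f a b c = W p a b c * DD p z a b c * DD p k a b c := by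
    simp only [f]
    rw [if_pos h, hψu a b c h hu]
  rw [h3] at h1
  linarith

/-- `DD` as a linear form -/
noncomputable def DDl (p : V → E3) (a b c : V) : (V → ℝ) →ₗ[ℝ] ℝ where
  toFun g := DD p g a b c
  map_add' g h := by unfold Sym.DD; simp only [Pi.add_apply]; ring
  map_smul' r g := by unfold Sym.DD; simp only [Pi.smul_apply, smul_eq_mul, RingHom.id_apply]; ring

open Classical in
theorem Ctx.exists_k [Fintype V] (C : Ctx G p F z n1 n2 n3) : ∃ k : V → ℝ, k ≠ 0 ∧
    (∀ v, z v < 0 → k v = 0) ∧ k n1 = 0 ∧ k n2 = 0 ∧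
    ∀ m b c, MidF F p 1 m b c → UpZ z m b c → DD p k m b c = 0 := by
  let L : (V → ℝ) →ₗ[ℝ] (V → ℝ) := LinearMap.pi fun v =>
    if v = n3 then 0 else if v = n1 ∨ v = n2 ∨ z v < 0 then LinearMap.proj v else
      if h : ∃ bc : V × V, MidF F p 1 v bc.1 bc.2 then DDl p v h.choose.1 h.choose.2 else 0
  have hLv : ∀ k v, L k v = (if v = n3 then 0 else
      if v = n1 ∨ v = n2 ∨ z v < 0 then LinearMap.proj v else
      if h : ∃ bc : V × V, MidF F p 1 v bc.1 bc.2 then DDl p v h.choose.1 h.choose.2 else 0 :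
      (V → ℝ) →ₗ[ℝ] ℝ) k := fun _ _ => rfl
  have hL3 : ∀ k, L k n3 = 0 := by
    intro k
    rw [hLv, if_pos rfl]; rfl
  have hns : ¬ Function.Surjective L := by
    intro h
    obtain ⟨k, hk⟩ := h (fun _ => 1)
    have := congrFun hk n3
    rw [hL3] at this
    exact zero_ne_one this
  have hni : ¬ Function.Injective L := fun h => hns (LinearMap.injective_iff_surjective.1 h)
  have hker : LinearMap.ker L ≠ ⊥ := fun h => hni (LinearMap.ker_eq_bot.1 h)
  obtain ⟨k, hk, hk0⟩ := Submodule.exists_mem_ne_zero_of_ne_bot hker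
  rw [LinearMap.mem_ker] at hk
  have hkv : ∀ v, L k v = 0 := fun v => by rw [hk]; rfl
  have n13 : n1 ≠ n3 := (C.Φ.ca C.hn).ne'
  have n23 : n2 ≠ n3 := (C.Φ.bc C.hn).ne
  obtain ⟨z1, z2, z3⟩ := C.up_nonneg C.hn C.nup
  refine ⟨k, hk0, ?_, ?_, ?_, ?_⟩
  · intro v hv
    have h := hkv v
    have hv3 : v ≠ n3 := by rintro rfl; linarith
    rw [hLv, if_neg hv3, if_pos (Or.inr (Or.inr hv) : v = n1 ∨ v = n2 ∨ z v < 0)] at h
    exact h
  · have h := hkv n1
    rw [hLv, if_neg n13, if_pos (Or.inl rfl : n1 = n1 ∨ n1 = n2 ∨ z n1 < 0)] at h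
    exact h
  · have h := hkv n2
    rw [hLv, if_neg n23, if_pos (Or.inr (Or.inl rfl) : n2 = n1 ∨ n2 = n2 ∨ z n2 < 0)] at h
    exact h
  · intro m b c hm hu
    obtain ⟨k1, k2, k3⟩ := hm.not_corner C.Φ C.hn C.hN
    have hz0 := (C.up_nonneg hm.f hu).1
    have h := hkv m
    have hnot : ¬ (m = n1 ∨ m = n2 ∨ z m < 0) := by
      rintro (h | h | h)
      · exact k1 h
      · exact k2 h
      · linarith
    have hex : ∃ bc : V × V, MidF F p 1 m bc.1 bc.2 := ⟨(b, c), hm⟩
    rw [hLv, if_neg k3, if_neg hnot, dif_pos hex] at h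
    obtain ⟨e1, e2⟩ := hm.uniq C.Φ hex.choose_spec
    rw [e1, e2] at h
    exact h

open Classical in
theorem Ctx.main [Fintype V] (C : Ctx G p F z n1 n2 n3) : ∃ k : V → ℝ, ‖k‖ = 1 ∧
    (∀ v, z v < 0 → k v = 0) ∧ k n1 = 0 ∧ k n2 = 0 ∧ DD p k n1 n2 n3 ≤ 0 ∧
    ∀ a b c, F a b c → UpZ z a b c → ¬ OC p a b c north → 0 ≤ DD p k a b c ∧
      DD p z a b c * DD p k a b c * (S (p n1) (p n2) * S (p n2) (p n3) * S (p n3) (p n1)) ≤
        (Fintype.card V : ℝ) ^ 3 * |S (p a) (p b) * S (p b) (p c) * S (p c) (p a)| *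
          (DD p z n1 n2 n3 * (-DD p k n1 n2 n3)) := by
  obtain ⟨k0, hk0, h1, h2, h3, h4⟩ := C.exists_k
  have hnorm : 0 < ‖k0‖ := norm_pos_iff.2 hk0
  -- a sign
  obtain ⟨ε, hε, hεs⟩ : ∃ ε : ℝ, |ε| = 1 ∧ ε * DD p k0 n1 n2 n3 ≤ 0 := by
    rcases le_total (DD p k0 n1 n2 n3) 0 with h | h
    · exact ⟨1, by simp, by linarith⟩
    · exact ⟨-1, by simp, by linarith⟩
  let k : V → ℝ := (ε * ‖k0‖⁻¹) • k0
  have hkDD : ∀ a b c, DD p k a b c = ε * ‖k0‖⁻¹ * DD p k0 a b c := by
    intro a b c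
    exact (DDl p a b c).map_smul (ε * ‖k0‖⁻¹) k0
  have hkn : ‖k‖ = 1 := by
    simp only [k]
    rw [norm_smul, Real.norm_eq_abs, abs_mul, hε, one_mul, abs_of_pos (inv_pos.2 hnorm),
      inv_mul_cancel₀ hnorm.ne']
  have hkN : DD p k n1 n2 n3 ≤ 0 := by
    rw [hkDD, mul_right_comm]
    exact mul_nonpos_of_nonpos_of_nonneg hεs (inv_pos.2 hnorm).le
  have hkm : ∀ m b c, MidF F p 1 m b c → UpZ z m b c → DD p k m b c = 0 := by
    intro m b c hm hu
    rw [hkDD, h4 m b c hm hu, mul_zero]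
  have hnn := C.nonneg hkm hkN
  have hbd := C.bound hkm hkN
  have hR : ∀ a b c : V, 0 ≤ (Fintype.card V : ℝ) ^ 3 *
      |S (p a) (p b) * S (p b) (p c) * S (p c) (p a)| *
          (DD p z n1 n2 n3 * (-DD p k n1 n2 n3)) := by
    intro a b c
    have := (C.hz _ _ _ C.hn).le
    have h5 : 0 ≤ -DD p k n1 n2 n3 := by linarith
    positivity
  refine ⟨k, hkn, ?_, ?_, ?_, hkN, ?_⟩
  · intro v hv; simp [k, h1 v hv]
  · simp [k, h2]
  · simp [k, h3]
  · refine C.reduce (Q := fun a b c => 0 ≤ DD p k a b c ∧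
      DD p z a b c * DD p k a b c * (S (p n1) (p n2) * S (p n2) (p n3) * S (p n3) (p n1)) ≤
        (Fintype.card V : ℝ) ^ 3 * |S (p a) (p b) * S (p b) (p c) * S (p c) (p a)| *
          (DD p z n1 n2 n3 * (-DD p k n1 n2 n3))) ?_ ?_ ?_
    · intro a b c h
      have e : S (p b) (p c) * S (p c) (p a) * S (p a) (p b) =
          S (p a) (p b) * S (p b) (p c) * S (p c) (p a) := by ring
      rwa [Sym.DD_rot k, Sym.DD_rot z, e] at h
    · intro a b c h hu
      rw [hkm a b c h hu]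
      refine ⟨le_rfl, ?_⟩
      rw [mul_zero, zero_mul]
      exact hR a b c
    · intro a b c h hu
      refine ⟨hnn a b c h hu, ?_⟩
      have hb := hbd a b c h.f hu (h.not_oc C.Φ)
      have hw := h.W (Or.inr rfl)
      have hwp : 0 < W p a b c := by linarith
      unfold Sym.W at hb hwp
      have hs := inv_pos.1 hwp
      obtain ⟨k1, k2, k3⟩ := C.npos
      have hsn : 0 < S (p n1) (p n2) * S (p n2) (p n3) * S (p n3) (p n1) :=
        mul_pos (mul_pos k1 k2) k3
      rw [abs_of_pos hs]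
      set A := S (p a) (p b) * S (p b) (p c) * S (p c) (p a)
      set B := S (p n1) (p n2) * S (p n2) (p n3) * S (p n3) (p n1)
      have hAB : 0 < A * B := mul_pos hs hsn
      have := mul_le_mul_of_nonneg_left hb hAB.le
      have e1 : A * B * (A⁻¹ * DD p z a b c * DD p k a b c) =
          DD p z a b c * DD p k a b c * B := by
        field_simp
      have e2 : A * B * ((Fintype.card V : ℝ) ^ 3 * (B⁻¹ * DD p z n1 n2 n3 *
          (-DD p k n1 n2 n3))) = (Fintype.card V : ℝ) ^ 3 * A *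
          (DD p z n1 n2 n3 * (-DD p k n1 n2 n3)) := by
        field_simp
      rw [e1, e2] at this
      exact this

end Pool.Agent.V11122.Cap
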