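import Pool.Agent.V11122.Sink.Defs

set_option autoImplicit false

/-! Shortest-path triangulations all of whose faces are spherical triangles; great circles that
are crossed by no edge. -/

namespace Pool.Agent.V11122.Cap

open Pool.Agent.V11122.Sink

/-- `p` is a shortest-path triangulation of the sphere with underlying graph `G`: it is a
shortest-path embedding, and every face (connected component of the complement of the drawing) is
an open spherical triangle spanned by three pairwise adjacent, linearly independent vertices. -/
structure IsTriangulation {V : Type} (G : SimpleGraph V) (p : V → E3) : Prop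
    extends IsShortestPathEmbedding G p where
  face : ∀ x ∈ sphere \ drawing G p, ∃ a b c, G.Adj a b ∧ G.Adj b c ∧ G.Adj c a ∧
    LinearIndependent ℝ ![p a, p b, p c] ∧
    connectedComponentIn (sphere \ drawing G p) x = openTriangle (p a) (p b) (p c)

/-- the inner product of `n` and `x` -/
def dot (n x : E3) : ℝ := n 0 * x 0 + n 1 * x 1 + n 2 * x 2

/-- No edge crosses the great circle `{x | ‖x‖ = 1, dot n x = 0}`: no edge has points in both open
hemispheres bounded by it. -/
def Uncrossed {V : Type} (G : SimpleGraph V) (p : V → E3) (n : E3) : Prop :=
  ∀ a b, G.Adj a b → ¬ ((∃ x ∈ arc (p a) (p b), dot n x < 0) ∧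
    ∃ y ∈ arc (p a) (p b), 0 < dot n y)

end Pool.Agent.V11122.Cap
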