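import Pool.Agent.V11122.Cap.Defs
import Pool.Agent.V11122.Sym.Mid

set_option autoImplicit false

/-! Complete simplicial fans in three-space. -/

namespace Pool.Agent.V11122.Cap

open Pool.Agent.V11122.Sink Filter Topology
open Pool.Agent.V11122.Sym (S Dt ext3 co InD EV OC CC Ad OnE nz Lf DD comp)

variable {V : Type} {G : SimpleGraph V} {p : V → E3} {F : V → V → V → Prop}

/-- the cones over the faces of a triangulation -/
structure Fan (G : SimpleGraph V) (p : V → E3) (F : V → V → V → Prop) : Prop where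
  ne : ∀ v, p v ≠ 0
  ind : ∀ a b, G.Adj a b → ∀ r s : ℝ, r • p a + s • p b = 0 → r = 0 ∧ s = 0
  com : ∀ a b c d, Ad G a b → Ad G c d → ∀ q : E3, q ≠ 0 → ∀ r s r' s' : ℝ, 0 ≤ r → 0 ≤ s →
    0 ≤ r' → 0 ≤ s' → q = r • p a + s • p b → q = r' • p c + s' • p d →
    (∃ v, ∃ l : ℝ, 0 < l ∧ (v = a ∨ v = b) ∧ (v = c ∨ v = d) ∧ q = l • p v) ∨
      (G.Adj a b ∧ (a = c ∧ b = d ∨ a = d ∧ b = c))
  rot : ∀ a b c, F a b c → F b c a
  ab : ∀ a b c, F a b c → G.Adj a b
  pos : ∀ a b c, F a b c → 0 < Dt (p a) (p b) (p c)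
  cov : ∀ q, q ≠ 0 → ¬ InD G p q → ∃ a b c, F a b c ∧ OC p a b c q
  off : ∀ a b c, F a b c → ∀ q, OC p a b c q → ¬ InD G p q
  same : ∀ a b c a' b' c', F a b c → F a' b' c' → ∀ q, OC p a b c q → OC p a' b' c' q →
    (a' = a ∧ b' = b ∧ c' = c) ∨ (a' = b ∧ b' = c ∧ c' = a) ∨ (a' = c ∧ b' = a ∧ c' = b)

theorem Fan.bc (Φ : Fan G p F) {a b c : V} (h : F a b c) : G.Adj b c :=
  Φ.ab _ _ _ (Φ.rot _ _ _ h)

theorem Fan.ca (Φ : Fan G p F) {a b c : V} (h : F a b c) : G.Adj c a :=
  Φ.ab _ _ _ (Φ.rot _ _ _ (Φ.rot _ _ _ h))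

theorem Dt_of_li {a b c : E3} (h : LinearIndependent ℝ ![a, b, c]) : Dt a b c ≠ 0 := by
  rw [Fintype.linearIndependent_iff] at h
  have key : ∀ r s t : ℝ, r • a + s • b + t • c = 0 → r = 0 ∧ s = 0 ∧ t = 0 := by
    intro r s t h1
    have h2 := h ![r, s, t] (by
      rw [Fin.sum_univ_three]
      simpa using h1)
    exact ⟨h2 0, h2 1, h2 2⟩
  intro h0
  have hz : ∀ q, Dt q b c = 0 := by
    intro q
    have h1 := Sym.cramer a b c q
    rw [h0, zero_smul] at h1
    exact (key _ _ _ h1.symm).1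
  have e0 := hz !₂[(1 : ℝ), 0, 0]
  have e1 := hz !₂[(0 : ℝ), 1, 0]
  have e2 := hz !₂[(0 : ℝ), 0, 1]
  have f0 : b 1 * c 2 - b 2 * c 1 = 0 := by simp [Dt, S] at e0; linarith
  have f1 : b 2 * c 0 - b 0 * c 2 = 0 := by simp [Dt, S] at e1; linarith
  have f2 : b 0 * c 1 - b 1 * c 0 = 0 := by simp [Dt, S] at e2; linarith
  have hb : ∀ i : Fin 3, c i = 0 := by
    intro i
    have : (0 : ℝ) • a + (c i) • b + (-(b i)) • c = 0 := by
      fin_cases i
      · apply ext3 <;> simp <;> linarith
      · apply ext3 <;> simp <;> linarith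
      · apply ext3 <;> simp <;> linarith
    exact (key _ _ _ this).2.1
  have := key 0 0 1 (by
    apply ext3
    · simp [hb 0]
    · simp [hb 1]
    · simp [hb 2])
  exact one_ne_zero this.2.2

/-- the oriented faces of a triangulation -/
structure TF (G : SimpleGraph V) (p : V → E3) (a b c : V) : Prop where
  ab : G.Adj a b
  bc : G.Adj b c
  ca : G.Adj c a
  pos : 0 < Dt (p a) (p b) (p c)
  face : ∀ x ∈ openTriangle (p a) (p b) (p c), comp G p x = openTriangle (p a) (p b) (p c)

theorem TF.rot {a b c : V} (h : TF G p a b c) : TF G p b c a where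
  ab := h.bc
  bc := h.ca
  ca := h.ab
  pos := by rw [Sym.Dt_rot]; exact h.pos
  face := by rw [Sym.openTriangle_rot]; exact h.face

theorem oc_ne {a b c : V} {q : E3} (h : OC p a b c q) : q ≠ 0 := by
  rintro rfl
  exact Sym.not_oc_zero a b c h

theorem TF.off (emb : IsShortestPathEmbedding G p) {a b c : V} (h : TF G p a b c) {q : E3}
    (ho : OC p a b c q) : ¬ InD G p q := by
  have hq := oc_ne ho
  rw [Sym.inD_iff emb hq]
  have h1 := (Sym.open_iff h.pos.ne' hq).2 ho
  have h2 := h.face _ h1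
  have h3 : nz q ∈ comp G p (nz q) := by rw [h2]; exact h1
  exact (Sym.comp_sub h3).2

theorem TF.corner (emb : IsShortestPathEmbedding G p) {a b c a' b' c' : V}
    (h : TF G p a b c) (h' : TF G p a' b' c') {q : E3} (ho : OC p a b c q)
    (ho' : OC p a' b' c' q) : a' = a ∨ a' = b ∨ a' = c := by
  have hq := oc_ne ho
  have h1 := h.face _ ((Sym.open_iff h.pos.ne' hq).2 ho)
  have h1' := h'.face _ ((Sym.open_iff h'.pos.ne' hq).2 ho')
  have hset : openTriangle (p a) (p b) (p c) = openTriangle (p a') (p b') (p c') := by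
    rw [← h1, h1']
  have hiff : ∀ r : E3, OC p a' b' c' r → OC p a b c r := by
    intro r h2
    have hr := oc_ne h2
    rw [← Sym.open_iff h.pos.ne' hr, hset, Sym.open_iff h'.pos.ne' hr]
    exact h2
  have hcorner : ∀ ε : ℝ, 0 < ε → OC p a b c (p a' + ε • (p b' + p c')) := by
    intro ε hε
    have e : p a' + ε • (p b' + p c') = (1 : ℝ) • p a' + ε • p b' + ε • p c' := by
      rw [smul_add, one_smul]; abel
    obtain ⟨k1, k2, k3⟩ := Sym.co_of_rep h'.pos.ne' e
    exact hiff _ ⟨by rw [k1]; exact one_pos, by rw [k2]; exact hε, by rw [k3]; exact hε⟩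
  have hcc : CC p a b c (p a') := by
    refine ⟨?_, ?_, ?_⟩
    · apply Sym.ge_of_forall (y := co (p a) (p b) (p c) (p b' + p c'))
      intro ε hε
      have := (hcorner ε hε).1
      rwa [Sym.co_add, Sym.co_smul] at this
    · apply Sym.ge_of_forall (y := co (p b) (p c) (p a) (p b' + p c'))
      intro ε hε
      have := (hcorner ε hε).2.1
      rwa [Sym.co_add, Sym.co_smul] at this
    · apply Sym.ge_of_forall (y := co (p c) (p a) (p b) (p b' + p c'))
      intro ε hε
      have := (hcorner ε hε).2.2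
      rwa [Sym.co_add, Sym.co_smul] at this
  have hd : InD G p (p a') := ⟨a', a', Or.inl rfl, 1, 0, zero_le_one, le_rfl, by simp⟩
  exact Sym.onE_vertex emb h.ab h.bc h.ca
    (Sym.onE_of h.pos.ne' hcc fun hoc => h.off emb hoc hd)

theorem TF.same (emb : IsShortestPathEmbedding G p) {a b c a' b' c' : V}
    (h : TF G p a b c) (h' : TF G p a' b' c') {q : E3} (ho : OC p a b c q)
    (ho' : OC p a' b' c' q) :
    (a' = a ∧ b' = b ∧ c' = c) ∨ (a' = b ∧ b' = c ∧ c' = a) ∨
      (a' = c ∧ b' = a ∧ c' = b) := by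
  have h1 := h.corner emb h' ho ho'
  have h2 := h.corner emb h'.rot ho ho'.rot
  have h3 := h.corner emb h'.rot.rot ho ho'.rot.rot
  have n1 := h'.ab.ne
  have n2 := h'.bc.ne
  have n3 := h'.ca.ne
  have hp := h.pos
  have hp' := h'.pos
  have sw : ∀ x y z : E3, Dt x z y = -Dt x y z := Sym.Dt_swap
  have rt : ∀ x y z : E3, Dt y z x = Dt x y z := Sym.Dt_rot
  rcases h1 with rfl | rfl | rfl
  · rcases h2 with rfl | rfl | rfl
    · exact absurd rfl n1
    · rcases h3 with rfl | rfl | rfl
      · exact absurd rfl n3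
      · exact absurd rfl n2
      · exact Or.inl ⟨rfl, rfl, rfl⟩
    · rcases h3 with rfl | rfl | rfl
      · exact absurd rfl n3
      · rw [sw] at hp'; linarith
      · exact absurd rfl n2
  · rcases h2 with rfl | rfl | rfl
    · rcases h3 with rfl | rfl | rfl
      · exact absurd rfl n2
      · exact absurd rfl n3
      · rw [← rt, sw] at hp'; linarith
    · exact absurd rfl n1
    · rcases h3 with rfl | rfl | rfl
      · exact Or.inr (Or.inl ⟨rfl, rfl, rfl⟩)
      · exact absurd rfl n3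
      · exact absurd rfl n2
  · rcases h2 with rfl | rfl | rfl
    · rcases h3 with rfl | rfl | rfl
      · exact absurd rfl n2
      · exact Or.inr (Or.inr ⟨rfl, rfl, rfl⟩)
      · exact absurd rfl n3
    · rcases h3 with rfl | rfl | rfl
      · have e : Dt (p a') (p b') (p c') = -Dt (p c') (p b') (p a') := by
          unfold Dt S; ring
        rw [e] at hp'
        linarith
      · exact absurd rfl n2
      · exact absurd rfl n3
    · exact absurd rfl n1

theorem fan_of (T : IsTriangulation G p) : Fan G p (TF G p) where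
  ne := Sym.p_ne_zero T.toIsShortestPathEmbedding
  ind := by
    intro a b hab r s h
    have emb := T.toIsShortestPathEmbedding
    have h1 : r • p a = (-s) • p b := by rw [neg_smul]; exact eq_neg_of_add_eq_zero_left h
    have h2 : |r| = |s| := by
      have := congrArg norm h1
      rwa [norm_smul, norm_smul, emb.unit, emb.unit, mul_one, mul_one, Real.norm_eq_abs,
        Real.norm_eq_abs, abs_neg] at this
    have hr : r = 0 := by
      rcases abs_eq_abs.1 h2 with h3 | h3
      · have h4 : r • (p a + p b) = 0 := by rw [smul_add]; rw [← h3] at h; exact h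
        rcases smul_eq_zero.1 h4 with h5 | h5
        · exact h5
        · exact absurd (eq_neg_of_add_eq_zero_left h5) (emb.short a b hab)
      · have h4 : r • (p a - p b) = 0 := by
          rw [smul_sub, sub_eq_add_neg, ← neg_smul]
          rw [show -r = s by rw [h3, neg_neg]]
          exact h
        rcases smul_eq_zero.1 h4 with h5 | h5
        · exact h5
        · exact absurd (emb.inj (sub_eq_zero.1 h5)) hab.ne
    refine ⟨hr, ?_⟩
    rw [hr, abs_zero] at h2
    exact abs_eq_zero.1 h2.symm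
  com := by
    intro a b c d hab hcd q hq r s r' s' hr hs hr' hs' e e'
    rcases Sym.common T.toIsShortestPathEmbedding hab hcd hq hr hs hr' hs' e e' with
      ⟨v, h1, h2, h3⟩ | h
    · exact Or.inl ⟨v, ‖q‖, norm_pos_iff.2 hq, h1, h2, h3⟩
    · exact Or.inr h
  rot := fun _ _ _ h => h.rot
  ab := fun _ _ _ h => h.ab
  pos := fun _ _ _ h => h.pos
  cov := by
    intro q hq hd
    have emb := T.toIsShortestPathEmbedding
    rw [Sym.inD_iff emb hq] at hd
    have hx : nz q ∈ sphere \ drawing G p := ⟨Sym.norm_nz hq, hd⟩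
    obtain ⟨a, b, c, ab, bc, ca, hli, h⟩ := T.face _ hx
    change comp G p (nz q) = _ at h
    have hD := Dt_of_li hli
    have hface : ∀ x ∈ openTriangle (p a) (p b) (p c),
        comp G p x = openTriangle (p a) (p b) (p c) := by
      intro x hx'
      rw [← h] at hx' ⊢
      exact Sym.comp_eq hx'
    have hoc : OC p a b c q := by
      rw [← Sym.open_iff hD hq, ← h]; exact Sym.mem_comp hx
    rcases lt_or_gt_of_ne hD with hD' | hD'
    · refine ⟨a, c, b, ⟨ca.symm, bc.symm, ab.symm, ?_, ?_⟩, Sym.OC_swap.2 hoc⟩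
      · rw [Sym.Dt_swap]; linarith
      · rw [Sym.openTriangle_swap]; exact hface
    · exact ⟨a, b, c, ⟨ab, bc, ca, hD', hface⟩, hoc⟩
  off := fun _ _ _ h _ ho => h.off T.toIsShortestPathEmbedding ho
  same := fun _ _ _ _ _ _ h h' _ ho ho' => h.same T.toIsShortestPathEmbedding h' ho ho'

/-! ### values -/

theorem Fan.val_at (Φ : Fan G p F) {a b v : V}
    (hab : Ad G a b) {r s l : ℝ} (hv : v = a ∨ v = b) (e : r • p a + s • p b = l • p v)
    (g : V → ℝ) : r * g a + s * g b = l * g v := by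
  rcases hab with hab | hab
  · subst hab
    have hva : v = a := by rcases hv with h | h <;> exact h
    subst hva
    have : (r + s - l) • p v = 0 := by rw [sub_smul, add_smul, e, sub_self]
    have h2 : r + s - l = 0 := (smul_eq_zero.1 this).resolve_right (Φ.ne v)
    have : l = r + s := by linarith
    rw [this]; ring
  · rcases hv with h | h
    · subst h
      have := Φ.ind _ _ hab (r - l) s (by
        rw [sub_smul, sub_add_eq_add_sub, e, sub_self])
      rw [this.2, show r = l by linarith [this.1]]; ring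
    · subst h
      have := Φ.ind _ _ hab r (s - l) (by
        rw [sub_smul, ← add_sub_assoc, e, sub_self])
      rw [this.1, show s = l by linarith [this.2]]; ring

theorem Fan.eq2 (Φ : Fan G p F) {a b : V} (hab : G.Adj a b) {r s r' s' : ℝ}
    (h0 : r • p a + s • p b = r' • p a + s' • p b) : r = r' ∧ s = s' := by
  have : (r - r') • p a + (s - s') • p b = 0 := by
    rw [sub_smul, sub_smul]
    have h1 : r • p a - r' • p a + (s • p b - s' • p b) =
      (r • p a + s • p b) - (r' • p a + s' • p b) := by abel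
    rw [h1, h0, sub_self]
  obtain ⟨h1, h2⟩ := Φ.ind _ _ hab _ _ this
  exact ⟨by linarith, by linarith⟩

theorem Fan.ev_unique (Φ : Fan G p F) {g : V → ℝ} {q : E3}
    (hq : q ≠ 0) {w w' : ℝ} (h : EV G p g q w) (h' : EV G p g q w') : w = w' := by
  obtain ⟨a, b, hab, r, s, hr, hs, e, rfl⟩ := h
  obtain ⟨c, d, hcd, r', s', hr', hs', e', rfl⟩ := h'
  rcases Φ.com _ _ _ _ hab hcd q hq _ _ _ _ hr hs hr' hs' e e' with
    ⟨v, l, -, h1, h2, h3⟩ | ⟨hadj, h⟩
  · rw [Φ.val_at hab h1 (e.symm.trans h3) g, Φ.val_at hcd h2 (e'.symm.trans h3) g]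
  · rcases h with ⟨rfl, rfl⟩ | ⟨rfl, rfl⟩
    · obtain ⟨h1, h2⟩ := Φ.eq2 hadj (e.symm.trans e')
      rw [h1, h2]
    · obtain ⟨h1, h2⟩ := Φ.eq2 (r' := s') (s' := r') hadj (by rw [← e, e', add_comm])
      rw [h1, h2]; ring

theorem Fan.onE (Φ : Fan G p F) {a b c : V} (h : F a b c) {q : E3}
    (hc : CC p a b c q) (hd : InD G p q) : OnE p a b c q :=
  Sym.onE_of (Φ.pos _ _ _ h).ne' hc fun ho => Φ.off _ _ _ h q ho hd

theorem Fan.ev (Φ : Fan G p F) {a b c : V} (h : F a b c) {q : E3}
    (hc : CC p a b c q) (hd : InD G p q) (g : V → ℝ) : EV G p g q (Lf p g a b c q) :=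
  (Φ.onE h hc hd).ev (Φ.ab _ _ _ h) (Φ.bc h) (Φ.ca h) (Φ.pos _ _ _ h).ne' g

theorem Fan.agree (Φ : Fan G p F) {a b c a' b' c' : V}
    (h : F a b c) (h' : F a' b' c') {q : E3} (hq : q ≠ 0) (hc : CC p a b c q)
    (hc' : CC p a' b' c' q) (g : V → ℝ) : Lf p g a b c q = Lf p g a' b' c' q := by
  by_cases hd : InD G p q
  · exact Φ.ev_unique hq (Φ.ev h hc hd g) (Φ.ev h' hc' hd g)
  · have ho : OC p a b c q := by
      by_contra hcon
      exact hd ((Sym.onE_of (Φ.pos _ _ _ h).ne' hc hcon).inD (Φ.ab _ _ _ h) (Φ.bc h) (Φ.ca h))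
    have ho' : OC p a' b' c' q := by
      by_contra hcon
      exact hd ((Sym.onE_of (Φ.pos _ _ _ h').ne' hc' hcon).inD (Φ.ab _ _ _ h') (Φ.bc h')
        (Φ.ca h'))
    rcases Φ.same _ _ _ _ _ _ h h' q ho ho' with ⟨e1, e2, e3⟩ | ⟨e1, e2, e3⟩ | ⟨e1, e2, e3⟩
    · rw [e1, e2, e3]
    · rw [e1, e2, e3]; exact (Sym.Lf_rot g a b c q).symm
    · rw [e1, e2, e3]; exact Sym.Lf_rot g c a b q

/-! ### covering by closed cones -/

theorem exists_off_dir [Finite V] (p : V → E3) : ∃ d : E3, ∀ a b : V, ∀ r s : ℝ,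
    d ≠ r • p a + s • p b := by
  classical
  haveI : Fintype V := Fintype.ofFinite V
  let W : V × V → Submodule ℝ E3 := fun ab => Submodule.span ℝ (({p ab.1, p ab.2} : Finset E3) : Set E3)
  have hcov : (⋃ i, (W i : Set E3)) ≠ Set.univ := by
    intro h
    obtain ⟨i, hi⟩ := Subspace.exists_eq_top_of_iUnion_eq_univ h
    have h1 : Module.finrank ℝ (W i) ≤ 2 :=
      (finrank_span_finset_le_card _).trans Finset.card_le_two
    rw [hi, finrank_top, finrank_euclideanSpace_fin] at h1
    omega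
  obtain ⟨d, hd⟩ := (Set.ne_univ_iff_exists_notMem _).1 hcov
  refine ⟨d, ?_⟩
  rintro a b r s rfl
  apply hd
  simp only [Set.mem_iUnion]
  refine ⟨(a, b), ?_⟩
  apply Submodule.add_mem
  · apply Submodule.smul_mem
    apply Submodule.subset_span
    simp
  · apply Submodule.smul_mem
    apply Submodule.subset_span
    simp

theorem Fan.cc_cover [Finite V] (Φ : Fan G p F) (x : E3) :
    ∃ a b c, F a b c ∧ CC p a b c x := by
  obtain ⟨d, hd⟩ := exists_off_dir p
  have hev : ∀ᶠ t in 𝓝[>] (0 : ℝ), ¬ InD G p (x + t • d) := by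
    have key : ∀ ab : V × V, ∀ᶠ t in 𝓝[>] (0 : ℝ),
        t ∉ {t : ℝ | ∃ r s : ℝ, x + t • d = r • p ab.1 + s • p ab.2} := by
      rintro ⟨a, b⟩
      apply Sym.ev_subs
      rintro t ⟨r, s, e⟩ t' ⟨r', s', e'⟩
      by_contra hne
      apply hd a b ((t - t')⁻¹ * (r - r')) ((t - t')⁻¹ * (s - s'))
      have h1 : (t - t') • d = (r - r') • p a + (s - s') • p b := by
        simp only at e e'
        have : (t - t') • d = (x + t • d) - (x + t' • d) := by rw [sub_smul]; abel
        rw [this, e, e', sub_smul, sub_smul]; abel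
      rw [mul_smul, mul_smul, ← smul_add, ← h1, smul_smul,
        inv_mul_cancel₀ (sub_ne_zero.2 hne), one_smul]
    filter_upwards [eventually_all.2 key] with t ht
    rintro ⟨a, b, -, r, s, -, -, e⟩
    exact ht (a, b) ⟨r, s, e⟩
  have hne : ∀ᶠ t in 𝓝[>] (0 : ℝ), x + t • d ≠ 0 := by
    have : ∀ᶠ t in 𝓝[>] (0 : ℝ), t ∉ {t : ℝ | x + t • d = 0} := by
      apply Sym.ev_subs
      intro t ht t' ht'
      by_contra hne
      have hd0 : d ≠ 0 := by
        rintro rfl
        by_cases hV : Nonempty V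
        · obtain ⟨v⟩ := hV
          exact hd v v 0 0 (by simp)
        · have h0 := ht
          have h1 : x = 0 := by simpa using h0
          exact False.elim (by
            obtain ⟨a, -⟩ := Φ.cov !₂[(0 : ℝ), 0, 1] (by
              intro h
              have := congrArg (fun y : E3 => y 2) h
              simp at this) (by
              rintro ⟨a, -⟩
              exact hV ⟨a⟩)
            exact hV ⟨a⟩)
      have h1 : (t - t') • d = 0 := by
        have : (t - t') • d = (x + t • d) - (x + t' • d) := by rw [sub_smul]; abel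
        rw [this, show x + t • d = 0 from ht, show x + t' • d = 0 from ht', sub_zero]
      exact hne (sub_eq_zero.1 ((smul_eq_zero.1 h1).resolve_right hd0))
    exact this
  by_contra hcon
  push Not at hcon
  have hall : ∀ y : V × V × V, ∀ᶠ t in 𝓝[>] (0 : ℝ),
      ¬ (F y.1 y.2.1 y.2.2 ∧ OC p y.1 y.2.1 y.2.2 (x + t • d)) := by
    rintro ⟨a, b, c⟩
    by_cases hN : F a b c
    · have : ¬ ∃ᶠ t in 𝓝[>] (0 : ℝ), OC p a b c (x + t • d) := by
        intro hf
        apply hcon a b c hN
        refine ⟨?_, ?_, ?_⟩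
        · apply Sym.frequently_pos_lim (y := co (p a) (p b) (p c) d)
          exact hf.mono fun t h => by have := h.1; rwa [Sym.co_add, Sym.co_smul] at this
        · apply Sym.frequently_pos_lim (y := co (p b) (p c) (p a) d)
          exact hf.mono fun t h => by have := h.2.1; rwa [Sym.co_add, Sym.co_smul] at this
        · apply Sym.frequently_pos_lim (y := co (p c) (p a) (p b) d)
          exact hf.mono fun t h => by have := h.2.2; rwa [Sym.co_add, Sym.co_smul] at this
      rw [not_frequently] at this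
      filter_upwards [this] with t ht
      exact fun h => ht h.2
    · exact Eventually.of_forall fun t h => hN h.1
  have hall' := eventually_all.2 hall
  obtain ⟨t, h1, h2, h3⟩ := (hev.and (hne.and hall')).exists
  obtain ⟨a, b, c, h4, h5⟩ := Φ.cov _ h2 h1
  exact h3 (a, b, c) ⟨h4, h5⟩

/-! ### growth along vertical lines -/

theorem Fan.growth [Finite V] (Φ : Fan G p F) (K : V → V → V → Prop)
    (hK : ∀ a b c, K a b c → F a b c) (g : V → ℝ) (m : ℝ)
    (hm : ∀ a b c, K a b c → m ≤ DD p g a b c / Dt (p a) (p b) (p c))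
    {q : E3} {t : ℝ} (ht : 0 < t) (hu : q 0 ≠ 0 ∨ q 1 ≠ 0)
    (hcov : ∀ z, 0 < z → z < t → ∃ a b c, K a b c ∧ CC p a b c (q + z • north))
    {w w' : ℝ} (hw : EV G p g q w) (hw' : EV G p g (q + t • north) w') :
    m * t ≤ w' - w := by
  classical
  have hne : ∀ x : ℝ, q + x • north ≠ 0 := by
    intro x
    apply Sym.ne_zero_of_horiz
    rw [Sym.vadd0, Sym.vadd1]; exact hu
  let C : V × V × V → Set ℝ := fun x => {z | CC p x.1 x.2.1 x.2.2 (q + z • north)}
  haveI : Fintype V := Fintype.ofFinite V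
  let TT : Finset (V × V × V) := Finset.univ.filter fun x => K x.1 x.2.1 x.2.2
  have hTT : ∀ x, x ∈ TT ↔ K x.1 x.2.1 x.2.2 := by intro x; simp [TT]
  have hcoC : ∀ a b c : V, ∀ z : ℝ, CC p a b c (q + z • north) ↔
      (0 ≤ co (p a) (p b) (p c) q + z * (S (p b) (p c) / Dt (p a) (p b) (p c)) ∧
       0 ≤ co (p b) (p c) (p a) q + z * (S (p c) (p a) / Dt (p b) (p c) (p a)) ∧
       0 ≤ co (p c) (p a) (p b) q + z * (S (p a) (p b) / Dt (p c) (p a) (p b))) := by
    intro a b c z
    unfold Sym.CC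
    rw [Sym.co_vert, Sym.co_vert, Sym.co_vert]
  have hclosed : ∀ x, IsClosed (C x) := by
    rintro ⟨a, b, c⟩
    have : C (a, b, c) = {z : ℝ | 0 ≤ co (p a) (p b) (p c) q +
          z * (S (p b) (p c) / Dt (p a) (p b) (p c))} ∩
        ({z : ℝ | 0 ≤ co (p b) (p c) (p a) q + z * (S (p c) (p a) / Dt (p b) (p c) (p a))} ∩
        {z : ℝ | 0 ≤ co (p c) (p a) (p b) q +
          z * (S (p a) (p b) / Dt (p c) (p a) (p b))}) := by
      ext z
      exact hcoC a b c z
    rw [this]
    apply IsClosed.inter (isClosed_le continuous_const (by fun_prop))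
    exact IsClosed.inter (isClosed_le continuous_const (by fun_prop))
      (isClosed_le continuous_const (by fun_prop))
  -- the cover
  have hcover : Set.Icc 0 t ⊆ ⋃ x ∈ TT, C x := by
    have hsub : Set.Ioo 0 t ⊆ ⋃ x ∈ TT, C x := by
      intro z hz
      obtain ⟨a, b, c, h1, h2⟩ := hcov z hz.1 hz.2
      simp only [Set.mem_iUnion, exists_prop]
      exact ⟨(a, b, c), (hTT _).2 h1, h2⟩
    have hcl : IsClosed (⋃ x ∈ TT, C x) :=
      Set.Finite.isClosed_biUnion TT.finite_toSet fun x _ => hclosed x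
    have := closure_mono hsub
    rw [closure_Ioo ht.ne, hcl.closure_eq] at this
    exact this
  -- the function
  let φ : ℝ → ℝ := fun z =>
    if h : ∃ x : V × V × V, K x.1 x.2.1 x.2.2 ∧ CC p x.1 x.2.1 x.2.2 (q + z • north) then
      Lf p g h.choose.1 h.choose.2.1 h.choose.2.2 (q + z • north) else 0
  have hφ : ∀ z (x : V × V × V), K x.1 x.2.1 x.2.2 →
      CC p x.1 x.2.1 x.2.2 (q + z • north) → φ z = Lf p g x.1 x.2.1 x.2.2 (q + z • north) := by
    intro z x h1 h2
    have hex : ∃ x : V × V × V, K x.1 x.2.1 x.2.2 ∧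
        CC p x.1 x.2.1 x.2.2 (q + z • north) := ⟨x, h1, h2⟩
    change dite _ _ _ = _
    rw [dif_pos hex]
    exact Φ.agree (hK _ _ _ hex.choose_spec.1) (hK _ _ _ h1) (hne z) hex.choose_spec.2 h2 g
  have hmain := Sym.covering TT C φ m (fun x _ => hclosed x) (by
      rintro ⟨a, b, c⟩ -
      constructor
      intro x hx y hy z hz
      change CC p a b c (q + x • north) at hx
      change CC p a b c (q + y • north) at hy
      change CC p a b c (q + z • north)
      rw [hcoC] at hx hy ⊢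
      have aff : ∀ A B : ℝ, 0 ≤ A + x * B → 0 ≤ A + y * B → 0 ≤ A + z * B := by
        intro A B h1 h2
        rcases le_total 0 B with hB | hB
        · have := mul_le_mul_of_nonneg_right hz.1 hB; linarith
        · have := mul_le_mul_of_nonpos_right hz.2 hB; linarith
      exact ⟨aff _ _ hx.1 hy.1, aff _ _ hx.2.1 hy.2.1, aff _ _ hx.2.2 hy.2.2⟩) (by
      rintro ⟨a, b, c⟩ hx x h1 y h2 hxy
      have hN : K a b c := (hTT _).1 hx
      rw [hφ x (a, b, c) hN h1, hφ y (a, b, c) hN h2]
      simp only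
      rw [Sym.Lf_vert, Sym.Lf_vert]
      have := hm a b c hN
      have h3 := mul_le_mul_of_nonneg_right this (sub_nonneg.2 hxy)
      linarith) 0 t ht.le hcover
  -- values at the ends
  have hend : ∀ z ∈ Set.Icc (0 : ℝ) t, ∀ w, EV G p g (q + z • north) w → φ z = w := by
    intro z hz w hw
    have := hcover hz
    simp only [Set.mem_iUnion, exists_prop] at this
    obtain ⟨⟨a, b, c⟩, h1, h2⟩ := this
    have hN : K a b c := (hTT _).1 h1
    rw [hφ z (a, b, c) hN h2]
    exact Φ.ev_unique (hne z) (Φ.ev (hK _ _ _ hN) h2 hw.inD g) hw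
  have e1 := hend 0 ⟨le_rfl, ht.le⟩ w (by rw [zero_smul, add_zero]; exact hw)
  have e2 := hend t ⟨ht.le, le_rfl⟩ w' hw'
  rw [e1, e2, sub_zero] at hmain
  exact hmain

end Pool.Agent.V11122.Cap
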