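import Pool.Agent.V11122.Cap.Limit

set_option autoImplicit false

/-! Triangulations with an uncrossed great circle are sinkable exactly when the north pole is not
on the drawing. -/

namespace Pool.Agent.V11122.Cap

open Pool.Agent.V11122.Sink Filter Topology
open Pool.Agent.V11122.Sym (S Dt ext3 co InD EV OC CC Ad OnE nz DD W DE)

variable {V : Type} {G : SimpleGraph V} {p : V → E3} {F : V → V → V → Prop}
  {n1 n2 n3 : V} {n : E3}

theorem above1 {a b c : V} (s1 : 0 < S (p a) (p b)) (s2 : 0 < S (p b) (p c))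
    (s3 : 0 < S (p c) (p a)) (q : E3) :
    ∃ x y, DE a b c x y ∧ ∃ r s : ℝ, 0 ≤ r ∧ 0 ≤ s ∧ q 0 = (r • p x + s • p y) 0 ∧
      q 1 = (r • p x + s • p y) 1 := by
  have hsum : S (p b) (p c) * S (p a) q + S (p c) (p a) * S (p b) q +
      S (p a) (p b) * S (p c) q = 0 := by unfold Sym.S; ring
  have cone : ∀ x y : V, 0 < S (p x) (p y) → 0 ≤ S (p x) q → S (p y) q ≤ 0 →
      ∃ r s : ℝ, 0 ≤ r ∧ 0 ≤ s ∧ q 0 = (r • p x + s • p y) 0 ∧
        q 1 = (r • p x + s • p y) 1 := fun x y h h1 h2 =>
    Sym.cone2 (σ := 1) (by rw [one_mul]; exact h) (by rw [one_mul]; exact h1)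
      (by rw [one_mul]; exact h2)
  by_cases h1 : 0 ≤ S (p a) q
  · by_cases h2 : S (p b) q ≤ 0
    · exact ⟨a, b, Or.inl ⟨rfl, rfl⟩, cone _ _ s1 h1 h2⟩
    · push Not at h2
      by_cases h3 : S (p c) q ≤ 0
      · exact ⟨b, c, Or.inr (Or.inl ⟨rfl, rfl⟩), cone _ _ s2 h2.le h3⟩
      · push Not at h3
        exfalso
        have := mul_nonneg s2.le h1
        have := mul_pos s3 h2
        have := mul_pos s1 h3
        linarith
  · push Not at h1
    by_cases h3 : 0 ≤ S (p c) q
    · exact ⟨c, a, Or.inr (Or.inr ⟨rfl, rfl⟩), cone _ _ s3 h3 h1.le⟩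
    · push Not at h3
      by_cases h2 : 0 ≤ S (p b) q
      · exact ⟨b, c, Or.inr (Or.inl ⟨rfl, rfl⟩), cone _ _ s2 h2 h3.le⟩
      · push Not at h2
        exfalso
        have := mul_neg_of_pos_of_neg s2 h1
        have := mul_neg_of_pos_of_neg s3 h2
        have := mul_neg_of_pos_of_neg s1 h3
        linarith

theorem Fan.le_top [Finite V] (Φ : Fan G p F) (hor : ∀ v, p v 0 ≠ 0 ∨ p v 1 ≠ 0)
    (hn : 0 < n 2) (hF : F n1 n2 n3) (hN : OC p n1 n2 n3 north) (v : V)
    (hv : 0 ≤ dot n (p v)) :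
    ∃ x y, DE n1 n2 n3 x y ∧ ∃ r s : ℝ, 0 ≤ r ∧ 0 ≤ s ∧ 0 < r + s ∧
      ∀ g : V → ℝ, (∀ a b c, F a b c → ¬ OC p a b c north → Up p n a b c →
        0 ≤ DD p g a b c) → g v ≤ r * g x + s * g y := by
  obtain ⟨k1, k2, k3⟩ := oc_north_pos (Φ.pos _ _ _ hF) hN
  obtain ⟨x, y, hxy, r, s, hr, hs, e0, e1⟩ := above1 k1 k2 k3 (p v)
  have hq' : (r • p x + s • p y) 0 ≠ 0 ∨ (r • p x + s • p y) 1 ≠ 0 := by
    rw [← e0, ← e1]; exact hor v
  have hrs : 0 < r + s := by
    rcases (add_nonneg hr hs).lt_or_eq with h | h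
    · exact h
    · exfalso
      have h1 : r = 0 := by linarith
      have h2 : s = 0 := by linarith
      rw [h1, h2] at hq'
      simp at hq'
  have hadj : G.Adj x y := by
    rcases hxy with ⟨rfl, rfl⟩ | ⟨rfl, rfl⟩ | ⟨rfl, rfl⟩
    · exact Φ.ab _ _ _ hF
    · exact Φ.bc hF
    · exact Φ.ca hF
  have hE : OnE p n1 n2 n3 (r • p x + s • p y) := by
    rcases hxy with ⟨rfl, rfl⟩ | ⟨rfl, rfl⟩ | ⟨rfl, rfl⟩
    · exact Or.inl ⟨r, s, hr, hs, rfl⟩
    · exact Or.inr (Or.inl ⟨r, s, hr, hs, rfl⟩)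
    · exact Or.inr (Or.inr ⟨r, s, hr, hs, rfl⟩)
  have hcc := (Sym.cc_of_onE (Φ.pos _ _ _ hF).ne' hE).1
  refine ⟨x, y, hxy, r, s, hr, hs, hrs, fun g hg => ?_⟩
  have evv : EV G p g (p v) (g v) := ⟨v, v, Or.inl rfl, 1, 0, zero_le_one, le_rfl, by simp,
    by ring⟩
  have evq : EV G p g (r • p x + s • p y) (r * g x + s * g y) :=
    ⟨x, y, Or.inr hadj, r, s, hr, hs, rfl, rfl⟩
  rcases lt_trichotomy (p v 2) ((r • p x + s • p y) 2) with h | h | h
  · have e := Sym.eq_vadd e0 e1
    have ht : 0 < (r • p x + s • p y) 2 - p v 2 := by linarith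
    have evq' := evq
    rw [e] at evq'
    have := Φ.growthUp g 0 hn (fun a b c h1 h2 h3 =>
      div_nonneg (hg a b c h1 h2 h3) (Φ.pos _ _ _ h1).le) ht (hor v) hv evv evq'
    linarith
  · have e : p v = r • p x + s • p y := ext3 e0 e1 h
    rw [← e] at evq
    exact (Φ.ev_unique (Φ.ne v) evv evq).le
  · exfalso
    have e := Sym.eq_vadd e0.symm e1.symm
    have := cc_up hcc hN (show 0 < p v 2 - (r • p x + s • p y) 2 by linarith)
    rw [← e] at this
    exact Φ.off _ _ _ hF _ this evv.inD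

theorem DD_add (g h : V → ℝ) (r : ℝ) (a b c : V) :
    DD p (fun v => g v + r * h v) a b c = DD p g a b c + r * DD p h a b c := by
  unfold Sym.DD; ring

theorem DD_dot (a b c : V) :
    DD p (fun v => dot n (p v)) a b c = n 2 * Dt (p a) (p b) (p c) := by
  unfold Sym.DD Sym.Dt Sym.S dot; ring

theorem Fan.sinkable [Finite V] (Φ : Fan G p F) (emb : IsShortestPathEmbedding G p)
    (hor : ∀ v, p v 0 ≠ 0 ∨ p v 1 ≠ 0) (hN0 : ¬ InD G p north) (hn : 0 < n 2)
    (un : ∀ a b, G.Adj a b → 0 < dot n (p a) → 0 ≤ dot n (p b)) : Sinkable G p := by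
  classical
  haveI : Fintype V := Fintype.ofFinite V
  have hnn : (north : E3) ≠ 0 := by
    intro h
    have := congrArg (fun y : E3 => y 2) h
    simp [Sym.north2] at this
  obtain ⟨n1, n2, n3, hF, hN⟩ := Φ.cov north hnn hN0
  obtain ⟨S1, S2, S3⟩ := oc_north_pos (Φ.pos _ _ _ hF) hN
  have hSSS : 0 < S (p n1) (p n2) * S (p n2) (p n3) * S (p n3) (p n1) :=
    mul_pos (mul_pos S1 S2) S3
  obtain ⟨k, hk1, hk2, hk3, hk4, hk5, hk6⟩ := limit_k Φ hor hn un hF hN
  -- the north value is negative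
  have hkneg : DD p k n1 n2 n3 < 0 := by
    rcases hk5.lt_or_eq with h | h
    · exact h
    exfalso
    have hzero : ∀ a b c, F a b c → ¬ OC p a b c north → Up p n a b c →
        DD p k a b c = 0 := by
      intro a b c h1 h2 h3
      obtain ⟨h4, h5⟩ := hk6 a b c h1 h3 h2
      rw [h, neg_zero, mul_zero, mul_zero] at h5
      rcases h4.lt_or_eq with h6 | h6
      · exfalso
        have := mul_pos (mul_pos (mul_pos hn (Φ.pos _ _ _ h1)) h6) hSSS
        linarith
      · exact h6.symm
    have hkn3 : k n3 = 0 := by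
      unfold Sym.DD at h
      rw [hk3, hk4, zero_mul, zero_mul, zero_add, zero_add] at h
      exact (mul_eq_zero.1 h).resolve_right S1.ne'
    have hall : k = 0 := by
      funext v
      rcases lt_or_ge (dot n (p v)) 0 with hv | hv
      · exact hk2 v hv
      · obtain ⟨x, y, hxy, r, s, hr, hs, -, hle⟩ := Φ.le_top hor hn hF hN v hv
        have l1 := hle k fun a b c h1 h2 h3 => (hzero a b c h1 h2 h3).ge
        have l2 := hle (fun v => -k v) fun a b c h1 h2 h3 => by
          rw [Sym.DD_neg, hzero a b c h1 h2 h3, neg_zero]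
        have hx : k x = 0 ∧ k y = 0 := by
          rcases hxy with ⟨rfl, rfl⟩ | ⟨rfl, rfl⟩ | ⟨rfl, rfl⟩
          · exact ⟨hk3, hk4⟩
          · exact ⟨hk4, hkn3⟩
          · exact ⟨hkn3, hk3⟩
        rw [hx.1, hx.2] at l1
        simp only [hx.1, hx.2] at l2
        simp only [Pi.zero_apply]
        linarith
    rw [hall, norm_zero] at hk1
    exact zero_ne_one hk1
  -- large multiple
  let z : V → ℝ := fun v => dot n (p v)
  have hz : ∀ a b c, F a b c → 0 < DD p z a b c := by
    intro a b c h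
    change 0 < DD p (fun v => dot n (p v)) a b c
    rw [DD_dot]
    exact mul_pos hn (Φ.pos _ _ _ h)
  obtain ⟨τ, hτ, hτ2⟩ : ∃ τ : ℝ, 0 ≤ τ ∧
      DD p z n1 n2 n3 + τ * DD p k n1 n2 n3 < 0 := by
    refine ⟨(DD p z n1 n2 n3 + 1) / (-DD p k n1 n2 n3), ?_, ?_⟩
    · apply div_nonneg
      · have := hz _ _ _ hF; linarith
      · linarith
    · have e : (DD p z n1 n2 n3 + 1) / (-DD p k n1 n2 n3) *
          DD p k n1 n2 n3 = -(DD p z n1 n2 n3 + 1) := by
        rw [div_neg, neg_mul, div_mul_cancel₀ _ hkneg.ne]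
      rw [e]
      linarith
  set g : V → ℝ := fun v => z v + τ * k v with hg
  have hgU : ∀ a b c, F a b c → ¬ OC p a b c north → Up p n a b c → 0 < DD p g a b c := by
    intro a b c h1 h2 h3
    rw [hg, DD_add]
    have := mul_nonneg hτ (hk6 a b c h1 h3 h2).1
    have := hz a b c h1
    linarith
  have hgN : DD p g n1 n2 n3 < 0 := by rw [hg, DD_add]; exact hτ2
  -- level the north triple
  set σ' := S (p n1) (p n2) + S (p n2) (p n3) + S (p n3) (p n1) with hσ'
  have hσpos : 0 < σ' := by rw [hσ']; linarith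
  set C := DD p g n1 n2 n3 / σ' with hC
  have hCneg : C < 0 := div_neg_of_neg_of_pos hgN hσpos
  obtain ⟨α, β, l1, l2⟩ := Sym.lin_two (p := p) S1.ne' (C - g n1) (C - g n2)
  set g' : V → ℝ := fun v => g v + (α * p v 0 + β * p v 1) with hg'
  have ga : g' n1 = C := by rw [hg']; simp only; rw [l1]; ring
  have gb : g' n2 = C := by rw [hg']; simp only; rw [l2]; ring
  have gc : g' n3 = C := by
    have h1 := Sym.DD_lin (p := p) g α β n1 n2 n3
    change DD p g' n1 n2 n3 = _ at h1
    have h2 : DD p g n1 n2 n3 = C * σ' := by rw [hC, div_mul_cancel₀ _ hσpos.ne']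
    rw [h2] at h1
    unfold Sym.DD at h1
    rw [ga, gb, hσ'] at h1
    have h3 : (g' n3 - C) * S (p n1) (p n2) = 0 := by linarith
    have := (mul_eq_zero.1 h3).resolve_right S1.ne'
    linarith
  have hgU' : ∀ a b c, F a b c → ¬ OC p a b c north → Up p n a b c →
      0 < DD p g' a b c := by
    intro a b c h1 h2 h3
    rw [hg', Sym.DD_lin]; exact hgU a b c h1 h2 h3
  have hneg : ∀ v, 0 ≤ z v → g' v < 0 := by
    intro v hv
    obtain ⟨x, y, hxy, r, s, hr, hs, hrs, hle⟩ := Φ.le_top hor hn hF hN v hv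
    have l := hle g' fun a b c h1 h2 h3 => (hgU' a b c h1 h2 h3).le
    have hx : g' x = C ∧ g' y = C := by
      rcases hxy with ⟨rfl, rfl⟩ | ⟨rfl, rfl⟩ | ⟨rfl, rfl⟩
      · exact ⟨ga, gb⟩
      · exact ⟨gb, gc⟩
      · exact ⟨gc, ga⟩
    rw [hx.1, hx.2, ← add_mul] at l
    have := mul_neg_of_pos_of_neg hrs hCneg
    linarith
  -- the lower part
  let c0 : V → ℝ := fun v => if 0 ≤ z v then g' v else 0
  obtain ⟨m, hm, hml⟩ := Sym.exists_lower
    (Finset.univ.filter fun x : V × V × V => F x.1 x.2.1 x.2.2)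
    (fun x => DD p z x.1 x.2.1 x.2.2) (by
      rintro ⟨a, b, c⟩ hx
      exact hz a b c (by simpa using hx))
  let M : ℝ := ∑ x : V × V × V, |DD p c0 x.1 x.2.1 x.2.2|
  have hM : ∀ a b c, |DD p c0 a b c| ≤ M := fun a b c =>
    Finset.single_le_sum (f := fun x : V × V × V => |DD p c0 x.1 x.2.1 x.2.2|)
      (fun _ _ => abs_nonneg _) (Finset.mem_univ (a, b, c))
  have hM0 : 0 ≤ M := Finset.sum_nonneg fun _ _ => abs_nonneg _
  let K : ℝ := (M + 1) / m
  have hK : 0 < K := div_pos (by linarith) hm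
  have hKD : ∀ a b c, F a b c → M + 1 ≤ K * DD p z a b c := by
    intro a b c h
    have h1 := hml (a, b, c) (by simpa using h)
    have h2 : K * m = M + 1 := div_mul_cancel₀ _ hm.ne'
    have := mul_le_mul_of_nonneg_left h1 hK.le
    linarith
  let h : V → ℝ := fun v => if 0 ≤ z v then g' v else K * z v
  apply Φ.sink emb hor hN0 (g := h)
  · intro v
    simp only [h]
    split_ifs with hv
    · exact hneg v hv
    · push Not at hv
      exact mul_neg_of_pos_of_neg hK hv
  · intro a b c h1 h2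
    by_cases hu : Up p n a b c
    · have hnn3 : 0 ≤ z a ∧ 0 ≤ z b ∧ 0 ≤ z c := by
        have ab := Φ.ab _ _ _ h1
        have bc := Φ.bc h1
        have ca := Φ.ca h1
        rcases hu with h | h | h
        · exact ⟨h.le, un _ _ ab h, un _ _ ca.symm h⟩
        · exact ⟨un _ _ ab.symm h, h.le, un _ _ bc h⟩
        · exact ⟨un _ _ ca h, un _ _ bc.symm h, h.le⟩
      have e : DD p h a b c = DD p g' a b c := by
        unfold Sym.DD
        simp only [h, if_pos hnn3.1, if_pos hnn3.2.1, if_pos hnn3.2.2]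
      rw [e]
      exact hgU' a b c h1 h2 hu
    · unfold Up at hu
      push Not at hu
      have hh : ∀ v, z v ≤ 0 → h v = K * z v + c0 v := by
        intro v hv
        simp only [h, c0]
        split_ifs with h0
        · have : z v = 0 := le_antisymm hv h0
          rw [this]; ring
        · ring
      have e : DD p h a b c = K * DD p z a b c + DD p c0 a b c := by
        unfold Sym.DD
        rw [hh a hu.1, hh b hu.2.1, hh c hu.2.2]; ring
      rw [e]
      have l3 := hKD a b c h1
      have l4 := (abs_le.1 (hM a b c)).1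
      linarith

/-! ### the pole on an edge -/

theorem not_sinkable_of_north (emb : IsShortestPathEmbedding G p)
    (hpole : ∀ v, p v ≠ north ∧ p v ≠ -north) (hN : north ∈ drawing G p) :
    ¬ Sinkable G p := by
  rintro ⟨Γ, hcont, h0, hemb, hlong, hneg⟩
  rcases hN with ⟨v, hv⟩ | ⟨a, b, hab, -, s, t, hs, ht, e⟩
  · exact (hpole v).1 hv
  have hs0 : 0 < s := by
    rcases hs.lt_or_eq with h | h
    · exact h
    · exfalso
      rw [← h, zero_smul, zero_add] at e
      have h1 := congrArg norm e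
      rw [norm_smul, emb.unit, Sym.norm_north, Real.norm_eq_abs, abs_of_nonneg ht,
        mul_one] at h1
      rw [← h1, one_smul] at e
      exact (hpole b).1 e.symm
  have ht0 : 0 < t := by
    rcases ht.lt_or_eq with h | h
    · exact h
    · exfalso
      rw [← h, zero_smul, add_zero] at e
      have h1 := congrArg norm e
      rw [norm_smul, emb.unit, Sym.norm_north, Real.norm_eq_abs, abs_of_nonneg hs,
        mul_one] at h1
      rw [← h1, one_smul] at e
      exact (hpole a).1 e.symm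
  have e0 : s * p a 0 + t * p b 0 = 0 := by
    have := congrArg (fun y : E3 => y 0) e
    simp [Sym.north0] at this
    linarith
  have e1 : s * p a 1 + t * p b 1 = 0 := by
    have := congrArg (fun y : E3 => y 1) e
    simp [Sym.north1] at this
    linarith
  have e2 : s * p a 2 + t * p b 2 = 1 := by
    have := congrArg (fun y : E3 => y 2) e
    simp [Sym.north2] at this
    linarith
  have hcoord : ∀ v (i : Fin 3), Continuous fun t => Γ t v i := by
    intro v i
    have h1 : Continuous fun t => Γ t v := (continuous_apply v).comp hcont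
    exact (PiLp.continuous_apply 2 (fun _ : Fin 3 => ℝ) i).comp h1
  have hua : 0 < p a 0 * p a 0 + p a 1 * p a 1 := by
    by_contra hcon
    push Not at hcon
    have h1 := mul_self_nonneg (p a 0)
    have h2 := mul_self_nonneg (p a 1)
    have h3 : p a 0 = 0 := mul_self_eq_zero.1 (by linarith)
    have h4 : p a 1 = 0 := mul_self_eq_zero.1 (by linarith)
    have h5 := emb.unit a
    rw [EuclideanSpace.norm_eq, Fin.sum_univ_three, h3, h4] at h5
    simp at h5
    rcases h5 with h6 | h6
    · exact (hpole a).1 (ext3 h3 h4 h6)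
    · apply (hpole a).2
      apply ext3
      · rw [h3]; simp [Sym.north0]
      · rw [h4]; simp [Sym.north1]
      · rw [h6]; simp [Sym.north2]
  choose ra hra hra0 hra1 using fun t => (hlong t a).2
  choose rb hrb hrb0 hrb1 using fun t => (hlong t b).2
  -- dot products with the horizontal part of `p a`
  let A : unitInterval → ℝ := fun w => Γ w a 0 * p a 0 + Γ w a 1 * p a 1
  let B : unitInterval → ℝ := fun w => -(Γ w b 0 * p a 0 + Γ w b 1 * p a 1)
  have hA : ∀ w, A w = ra w * (p a 0 * p a 0 + p a 1 * p a 1) := by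
    intro w
    simp only [A]
    rw [hra0, hra1]; ring
  have hB : ∀ w, t * B w = rb w * s * (p a 0 * p a 0 + p a 1 * p a 1) := by
    intro w
    simp only [B]
    rw [hrb0, hrb1]
    linear_combination (-(rb w) * p a 0) * e0 - (rb w * p a 1) * e1
  have hApos : ∀ w, 0 < A w := fun w => by rw [hA]; exact mul_pos (hra w) hua
  have hBpos : ∀ w, 0 < B w := by
    intro w
    have : 0 < t * B w := by rw [hB]; exact mul_pos (mul_pos (hrb w) hs0) hua
    exact (mul_pos_iff_of_pos_left ht0).1 this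
  have hφ : Continuous fun w => Γ w a 2 * B w + Γ w b 2 * A w := by
    have ha0 := hcoord a 0
    have ha1 := hcoord a 1
    have ha2 := hcoord a 2
    have hb0 := hcoord b 0
    have hb1 := hcoord b 1
    have hb2 := hcoord b 2
    simp only [A, B]
    fun_prop
  have hstart : 0 ≤ Γ 0 a 2 * B 0 + Γ 0 b 2 * A 0 := by
    have h1 : t * (Γ 0 a 2 * B 0 + Γ 0 b 2 * A 0) = p a 0 * p a 0 + p a 1 * p a 1 := by
      simp only [A, B, h0]
      linear_combination (-(p a 2 * p a 0)) * e0 - (p a 2 * p a 1) * e1 +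
        (p a 0 * p a 0 + p a 1 * p a 1) * e2
    have h2 : 0 < t * (Γ 0 a 2 * B 0 + Γ 0 b 2 * A 0) := by rw [h1]; exact hua
    exact ((mul_pos_iff_of_pos_left ht0).1 h2).le
  have hend : Γ 1 a 2 * B 1 + Γ 1 b 2 * A 1 ≤ 0 := by
    have m1 := mul_neg_of_neg_of_pos (hneg a) (hBpos 1)
    have m2 := mul_neg_of_neg_of_pos (hneg b) (hApos 1)
    linarith
  obtain ⟨w, hw⟩ := mem_range_of_exists_le_of_exists_ge (c := (0 : ℝ)) hφ ⟨1, hend⟩
    ⟨0, hstart⟩
  simp only at hw
  -- antipodal at time `w`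
  have hS0 : p a 0 * p b 1 - p a 1 * p b 0 = 0 := by
    have : t * (p a 0 * p b 1 - p a 1 * p b 0) = 0 := by
      linear_combination (p a 0) * e1 - (p a 1) * e0
    exact (mul_eq_zero.1 this).resolve_left ht0.ne'
  have hz : B w • Γ w a + A w • Γ w b = 0 := by
    apply ext3
    · simp only [PiLp.add_apply, PiLp.smul_apply, smul_eq_mul, PiLp.zero_apply, A, B]
      rw [hra0, hrb0, hra1, hrb1]
      linear_combination (ra w * rb w * p a 1) * (-1) * hS0
    · simp only [PiLp.add_apply, PiLp.smul_apply, smul_eq_mul, PiLp.zero_apply, A, B]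
      rw [hra0, hrb0, hra1, hrb1]
      linear_combination (ra w * rb w * p a 0) * hS0
    · simp only [PiLp.add_apply, PiLp.smul_apply, smul_eq_mul, PiLp.zero_apply]
      linarith
  clear_value A B
  have h1 : B w • Γ w a = (-A w) • Γ w b := by
    rw [neg_smul]; exact eq_neg_of_add_eq_zero_left hz
  have h2 := congrArg norm h1
  rw [norm_smul, norm_smul, (hemb w).unit, (hemb w).unit, mul_one, mul_one,
    Real.norm_eq_abs, Real.norm_eq_abs, abs_neg, abs_of_pos (hBpos w),
    abs_of_pos (hApos w)] at h2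
  rw [h2, neg_smul, ← smul_neg] at h1
  exact (hemb w).short a b hab (smul_right_injective _ (hApos w).ne' h1)

/-! ### the circle -/

theorem horiz_of_pole (emb : IsShortestPathEmbedding G p)
    (hpole : ∀ v, p v ≠ north ∧ p v ≠ -north) (v : V) : p v 0 ≠ 0 ∨ p v 1 ≠ 0 := by
  by_contra hcon
  push Not at hcon
  obtain ⟨h3, h4⟩ := hcon
  have h5 := emb.unit v
  rw [EuclideanSpace.norm_eq, Fin.sum_univ_three, h3, h4] at h5
  simp at h5
  rcases h5 with h6 | h6
  · exact (hpole v).1 (ext3 h3 h4 h6)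
  · apply (hpole v).2
    apply ext3
    · rw [h3]; simp [Sym.north0]
    · rw [h4]; simp [Sym.north1]
    · rw [h6]; simp [Sym.north2]

theorem mem_arc_left (emb : IsShortestPathEmbedding G p) (a b : V) : p a ∈ arc (p a) (p b) :=
  ⟨emb.unit a, 1, 0, zero_le_one, le_rfl, by simp⟩

theorem mem_arc_right (emb : IsShortestPathEmbedding G p) (a b : V) : p b ∈ arc (p a) (p b) :=
  ⟨emb.unit b, 0, 1, le_rfl, zero_le_one, by simp⟩

theorem un_of (emb : IsShortestPathEmbedding G p) (h : Uncrossed G p n) (a b : V)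
    (hab : G.Adj a b) (ha : 0 < dot n (p a)) : 0 ≤ dot n (p b) := by
  by_contra hcon
  push Not at hcon
  exact h a b hab ⟨⟨_, mem_arc_right emb a b, hcon⟩, ⟨_, mem_arc_left emb a b, ha⟩⟩

theorem dot_neg (n x : E3) : dot (-n) x = -dot n x := by
  unfold dot; simp; ring

theorem un_neg (h : Uncrossed G p n) : Uncrossed G p (-n) := by
  intro a b hab
  rintro ⟨⟨x, hx, hx'⟩, ⟨y, hy, hy'⟩⟩
  rw [dot_neg] at hx' hy'
  exact h a b hab ⟨⟨y, hy, by linarith⟩, ⟨x, hx, by linarith⟩⟩

theorem n2_ne (Φ : Fan G p F) (emb : IsShortestPathEmbedding G p) (hN0 : ¬ InD G p north)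
    (hn : n ≠ 0) (h : Uncrossed G p n) : n 2 ≠ 0 := by
  intro h2
  have hnn : (north : E3) ≠ 0 := by
    intro h
    have := congrArg (fun y : E3 => y 2) h
    simp [Sym.north2] at this
  obtain ⟨a, b, c, hF, hN⟩ := Φ.cov north hnn hN0
  have hD := (Φ.pos _ _ _ hF)
  have e := Sym.rep hD.ne' north
  have e2 : dot n north = co (p a) (p b) (p c) north * dot n (p a) +
      co (p b) (p c) (p a) north * dot n (p b) + co (p c) (p a) (p b) north * dot n (p c) := by
    conv_lhs => rw [e]
    rw [dot_add, dot_add, dot_smul, dot_smul, dot_smul]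
  rw [dot_north, h2] at e2
  obtain ⟨o1, o2, o3⟩ := hN
  have ab := Φ.ab _ _ _ hF
  have bc := Φ.bc hF
  have ca := Φ.ca hF
  have un := un_of emb h
  have un' : ∀ a b, G.Adj a b → dot n (p a) < 0 → dot n (p b) ≤ 0 := by
    intro a b hab ha
    have := un_of emb (un_neg h) a b hab (by rw [dot_neg]; linarith)
    rw [dot_neg] at this
    linarith
  -- all three values vanish
  have hall : dot n (p a) = 0 ∧ dot n (p b) = 0 ∧ dot n (p c) = 0 := by
    have nonneg : 0 ≤ dot n (p a) → 0 ≤ dot n (p b) → 0 ≤ dot n (p c) →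
        dot n (p a) = 0 ∧ dot n (p b) = 0 ∧ dot n (p c) = 0 := by
      intro k1 k2 k3
      have m1 := mul_nonneg o1.le k1
      have m2 := mul_nonneg o2.le k2
      have m3 := mul_nonneg o3.le k3
      exact ⟨(mul_eq_zero.1 (by linarith :
          co (p a) (p b) (p c) north * dot n (p a) = 0)).resolve_left o1.ne',
        (mul_eq_zero.1 (by linarith :
          co (p b) (p c) (p a) north * dot n (p b) = 0)).resolve_left o2.ne',
        (mul_eq_zero.1 (by linarith :
          co (p c) (p a) (p b) north * dot n (p c) = 0)).resolve_left o3.ne'⟩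
    have nonpos : dot n (p a) ≤ 0 → dot n (p b) ≤ 0 → dot n (p c) ≤ 0 →
        dot n (p a) = 0 ∧ dot n (p b) = 0 ∧ dot n (p c) = 0 := by
      intro k1 k2 k3
      have m1 := mul_nonpos_of_nonneg_of_nonpos o1.le k1
      have m2 := mul_nonpos_of_nonneg_of_nonpos o2.le k2
      have m3 := mul_nonpos_of_nonneg_of_nonpos o3.le k3
      exact ⟨(mul_eq_zero.1 (by linarith :
          co (p a) (p b) (p c) north * dot n (p a) = 0)).resolve_left o1.ne',
        (mul_eq_zero.1 (by linarith :
          co (p b) (p c) (p a) north * dot n (p b) = 0)).resolve_left o2.ne',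
        (mul_eq_zero.1 (by linarith :
          co (p c) (p a) (p b) north * dot n (p c) = 0)).resolve_left o3.ne'⟩
    rcases lt_trichotomy (dot n (p a)) 0 with h | h | h
    · exact nonpos h.le (un' a b ab h) (un' a c ca.symm h)
    · rcases lt_trichotomy (dot n (p b)) 0 with h' | h' | h'
      · exact nonpos h.le h'.le (un' b c bc h')
      · rcases le_total 0 (dot n (p c)) with h'' | h''
        · exact nonneg h.ge h'.ge h''
        · exact nonpos h.le h'.le h''
      · exact nonneg h.ge h'.le (un b c bc h')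
    · exact nonneg h.le (un a b ab h) (un a c ca.symm h)
  obtain ⟨d1, d2, d3⟩ := hall
  -- hence `n = 0`
  have hcr := Sym.rep hD.ne' n
  have e3 : dot n n = co (p a) (p b) (p c) n * dot n (p a) +
      co (p b) (p c) (p a) n * dot n (p b) + co (p c) (p a) (p b) n * dot n (p c) := by
    have : dot n n = dot n (co (p a) (p b) (p c) n • p a + co (p b) (p c) (p a) n • p b +
        co (p c) (p a) (p b) n • p c) := by rw [← hcr]
    rw [this, dot_add, dot_add, dot_smul, dot_smul, dot_smul]
  rw [d1, d2, d3] at e3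
  unfold dot at e3
  have q0 := mul_self_nonneg (n 0)
  have q1 := mul_self_nonneg (n 1)
  have q2 := mul_self_nonneg (n 2)
  exact hn (ext3 (mul_self_eq_zero.1 (by linarith)) (mul_self_eq_zero.1 (by linarith))
    (mul_self_eq_zero.1 (by linarith)))

theorem main [Finite V] (T : IsTriangulation G p) (hpole : ∀ v, p v ≠ north ∧ p v ≠ -north)
    (hn : n ≠ 0) (h : Uncrossed G p n) : Sinkable G p ↔ north ∉ drawing G p := by
  have emb := T.toIsShortestPathEmbedding
  constructor
  · intro hs hN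
    exact not_sinkable_of_north emb hpole hN hs
  · intro hN
    have hnn : (north : E3) ≠ 0 := by
      intro h
      have := congrArg (fun y : E3 => y 2) h
      simp [Sym.north2] at this
    have hN0 : ¬ InD G p north := by
      rw [Sym.inD_iff emb hnn, Sym.nz_unit Sym.norm_north]
      exact hN
    have Φ := fan_of T
    have hor := horiz_of_pole emb hpole
    rcases lt_or_gt_of_ne (n2_ne Φ emb hN0 hn h) with h2 | h2
    · exact Φ.sinkable (n := -n) emb hor hN0 (by simpa using h2) (un_of emb (un_neg h))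
    · exact Φ.sinkable emb hor hN0 h2 (un_of emb h)

end Pool.Agent.V11122.Cap
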