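import Pool.Agent.V11122.Cap.Cone

set_option autoImplicit false

/-! Tilting the axis; passage to the limit. -/

namespace Pool.Agent.V11122.Cap

open Pool.Agent.V11122.Sink Filter Topology
open Pool.Agent.V11122.Sym (S Dt ext3 co InD EV OC CC Ad OnE nz DD W)

variable {V : Type} {G : SimpleGraph V} {p : V → E3} {F : V → V → V → Prop}
  {n1 n2 n3 : V} {n : E3}

theorem oc_map (A B : E3 →ₗ[ℝ] E3) (hAB : ∀ x, A (B x) = x) {δ : ℝ} (hδ : 0 < δ)
    (hD : ∀ x y w, Dt (A x) (A y) (A w) = δ * Dt x y w) (a b c : V) (q : E3) :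
    OC (fun v => A (p v)) a b c q ↔ OC p a b c (B q) := by
  have key : ∀ x y w : E3, co (A x) (A y) (A w) q = co x y w (B q) := by
    intro x y w
    unfold Sym.co
    conv_lhs => rw [← hAB q]
    rw [hD, hD, mul_div_mul_left _ _ hδ.ne']
  unfold Sym.OC
  simp only [key]

theorem inD_map (A B : E3 →ₗ[ℝ] E3) (hAB : ∀ x, A (B x) = x) (hBA : ∀ x, B (A x) = x)
    (q : E3) : InD G (fun v => A (p v)) q ↔ InD G p (B q) := by
  constructor
  · rintro ⟨a, b, hab, r, s, hr, hs, e⟩
    refine ⟨a, b, hab, r, s, hr, hs, ?_⟩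
    rw [e, map_add, map_smul, map_smul, hBA, hBA]
  · rintro ⟨a, b, hab, r, s, hr, hs, e⟩
    refine ⟨a, b, hab, r, s, hr, hs, ?_⟩
    rw [← map_smul, ← map_smul, ← map_add, ← e, hAB]

theorem Fan.map (Φ : Fan G p F) (A B : E3 →ₗ[ℝ] E3) (hAB : ∀ x, A (B x) = x)
    (hBA : ∀ x, B (A x) = x) {δ : ℝ} (hδ : 0 < δ)
    (hD : ∀ x y w, Dt (A x) (A y) (A w) = δ * Dt x y w) : Fan G (fun v => A (p v)) F where
  ne := by
    intro v h
    apply Φ.ne v
    rw [← hBA (p v), h, map_zero]
  ind := by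
    intro a b hab r s h
    apply Φ.ind a b hab
    rw [← map_smul, ← map_smul, ← map_add] at h
    rw [← hBA (r • p a + s • p b), h, map_zero]
  com := by
    intro a b c d hab hcd q hq r s r' s' hr hs hr' hs' e e'
    have hq' : B q ≠ 0 := by
      intro h
      apply hq
      rw [← hAB q, h, map_zero]
    have e1 : B q = r • p a + s • p b := by rw [e, map_add, map_smul, map_smul, hBA, hBA]
    have e2 : B q = r' • p c + s' • p d := by rw [e', map_add, map_smul, map_smul, hBA, hBA]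
    rcases Φ.com a b c d hab hcd (B q) hq' r s r' s' hr hs hr' hs' e1 e2 with
      ⟨v, l, hl, h1, h2, h3⟩ | h
    · refine Or.inl ⟨v, l, hl, h1, h2, ?_⟩
      rw [← map_smul, ← h3, hAB]
    · exact Or.inr h
  rot := Φ.rot
  ab := Φ.ab
  pos := by
    intro a b c h
    rw [hD]
    exact mul_pos hδ (Φ.pos _ _ _ h)
  cov := by
    intro q hq hd
    rw [inD_map A B hAB hBA] at hd
    have hq' : B q ≠ 0 := by
      intro h
      apply hq
      rw [← hAB q, h, map_zero]
    obtain ⟨a, b, c, h1, h2⟩ := Φ.cov _ hq' hd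
    exact ⟨a, b, c, h1, (oc_map A B hAB hδ hD a b c q).2 h2⟩
  off := by
    intro a b c h q ho
    rw [inD_map A B hAB hBA]
    exact Φ.off _ _ _ h _ ((oc_map A B hAB hδ hD a b c q).1 ho)
  same := by
    intro a b c a' b' c' h h' q ho ho'
    exact Φ.same _ _ _ _ _ _ h h' (B q) ((oc_map A B hAB hδ hD a b c q).1 ho)
      ((oc_map A B hAB hδ hD a' b' c' q).1 ho')

/-- the tilt -/
noncomputable def tl (n η : E3) (ε : ℝ) : E3 →ₗ[ℝ] E3 where
  toFun x := x + (ε * dot n x) • η
  map_add' x y := by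
    rw [dot_add]
    apply ext3 <;> simp <;> ring
  map_smul' r x := by
    rw [dot_smul]
    apply ext3 <;> simp <;> ring

theorem tl_apply (η : E3) (ε : ℝ) (x : E3) : tl n η ε x = x + (ε * dot n x) • η := rfl

theorem tl_dot (η : E3) (ε : ℝ) (x : E3) :
    dot n (tl n η ε x) = (1 + ε * dot n η) * dot n x := by
  rw [tl_apply, dot_add, dot_smul]; ring

theorem tl_inv (η : E3) (ε : ℝ) (h : 1 + ε * dot n η ≠ 0) (x : E3) :
    tl n η ε (tl n η (-ε / (1 + ε * dot n η)) x) = x := by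
  rw [tl_apply η ε, tl_dot, tl_apply]
  have e : 1 + -ε / (1 + ε * dot n η) * dot n η = 1 / (1 + ε * dot n η) := by
    field_simp
    ring
  rw [e, add_assoc, ← add_smul]
  have e2 : -ε / (1 + ε * dot n η) * dot n x + ε * (1 / (1 + ε * dot n η) * dot n x) = 0 := by
    ring
  rw [e2]; simp

theorem tl_inv' (η : E3) (ε : ℝ) (h : 1 + ε * dot n η ≠ 0) (x : E3) :
    tl n η (-ε / (1 + ε * dot n η)) (tl n η ε x) = x := by
  rw [tl_apply, tl_dot, tl_apply, add_assoc, ← add_smul]
  have e2 : ε * dot n x + -ε / (1 + ε * dot n η) * ((1 + ε * dot n η) * dot n x) = 0 := by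
    field_simp
    ring
  rw [e2]; simp

theorem tl_Dt (η : E3) (ε : ℝ) (x y w : E3) :
    Dt (tl n η ε x) (tl n η ε y) (tl n η ε w) = (1 + ε * dot n η) * Dt x y w := by
  simp only [tl_apply, Sym.Dt, Sym.S, PiLp.add_apply, PiLp.smul_apply, smul_eq_mul]
  unfold dot
  ring

/-- first-order change of `S` -/
noncomputable def sc (n η : E3) (x y : E3) : ℝ := S (dot n y • x - dot n x • y) η

theorem tl_S (η : E3) (ε : ℝ) (x y : E3) :
    S (tl n η ε x) (tl n η ε y) = S x y + ε * sc n η x y := by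
  simp only [tl_apply, sc, Sym.S, PiLp.add_apply, PiLp.sub_apply, PiLp.smul_apply, smul_eq_mul]
  ring

theorem tl_DD (η : E3) (ε : ℝ) (a b c : V) :
    DD (fun v => tl n η ε (p v)) (fun v => dot n (p v)) a b c =
      n 2 * Dt (p a) (p b) (p c) := by
  unfold Sym.DD
  rw [tl_S, tl_S, tl_S]
  simp only [sc, Sym.Dt, Sym.S, PiLp.sub_apply, PiLp.smul_apply, smul_eq_mul]
  unfold dot
  ring

theorem aff_off {x y : ℝ} (h : x ≠ 0 ∨ y ≠ 0) : ∀ᶠ t in 𝓝[>] (0 : ℝ), x + t * y ≠ 0 := by
  have : ∀ᶠ t in 𝓝[>] (0 : ℝ), t ∉ {t : ℝ | x + t * y = 0} := by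
    apply Sym.ev_subs
    intro t ht t' ht'
    have h1 : x + t * y = 0 := ht
    have h2 : x + t' * y = 0 := ht'
    by_contra hne
    have h3 : (t - t') * y = 0 := by linarith
    have hy := (mul_eq_zero.1 h3).resolve_left (sub_ne_zero.2 hne)
    rw [hy, mul_zero, add_zero] at h1
    rcases h with h | h
    · exact h h1
    · exact h hy
  exact this

theorem exists_tilt [Finite V] (Φ : Fan G p F) (hor : ∀ v, p v 0 ≠ 0 ∨ p v 1 ≠ 0)
    (hn : 0 < n 2) : ∃ η : E3, ∀ᶠ ε in 𝓝[>] (0 : ℝ), Tilt G (fun v => tl n η ε (p v)) := by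
  -- choice of the direction
  have hbad : ∀ ab : V × V, ∀ᶠ s in 𝓝[>] (0 : ℝ), G.Adj ab.1 ab.2 →
      S (p ab.1) (p ab.2) = 0 → sc n !₂[(1 : ℝ), s, 0] (p ab.1) (p ab.2) ≠ 0 := by
    rintro ⟨a, b⟩
    by_cases hab : G.Adj a b
    · by_cases hS : S (p a) (p b) = 0
      · set y : E3 := dot n (p b) • p a - dot n (p a) • p b with hy
        have hy0 : y 0 ≠ 0 ∨ y 1 ≠ 0 := by
          by_contra hcon
          push Not at hcon
          obtain ⟨h0, h1⟩ := hcon
          have hd : dot n y = 0 := by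
            rw [hy, sub_eq_add_neg, dot_add, ← neg_smul, dot_smul, dot_smul]; ring
          have h2 : y 2 = 0 := by
            unfold dot at hd
            rw [h0, h1] at hd
            have : n 2 * y 2 = 0 := by linarith
            exact (mul_eq_zero.1 this).resolve_left hn.ne'
          have hz : y = 0 := ext3 h0 h1 h2
          have hind := Φ.ind a b hab (dot n (p b)) (-dot n (p a)) (by
            rw [neg_smul, ← sub_eq_add_neg, ← hy, hz])
          have da := neg_eq_zero.1 hind.2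
          have db := hind.1
          -- both on the plane and horizontally parallel
          have hrel : ∀ r s : ℝ, r * p a 0 + s * p b 0 = 0 → r * p a 1 + s * p b 1 = 0 →
              r = 0 ∧ s = 0 := by
            intro r s e0 e1
            apply Φ.ind a b hab
            apply ext3
            · simpa using e0
            · simpa using e1
            · unfold dot at da db
              have : n 2 * (r * p a 2 + s * p b 2) = 0 := by
                linear_combination r * da + s * db - n 0 * e0 - n 1 * e1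
              have := (mul_eq_zero.1 this).resolve_left hn.ne'
              simpa using this
          unfold Sym.S at hS
          have r1 := hrel (p b 0) (-p a 0) (by ring) (by linarith)
          have r2 := hrel (p b 1) (-p a 1) (by linarith) (by ring)
          have r3 := hrel 1 0 (by rw [neg_eq_zero.1 r1.2]; ring)
            (by rw [neg_eq_zero.1 r2.2]; ring)
          exact one_ne_zero r3.1
        have h3 : ∀ᶠ s in 𝓝[>] (0 : ℝ), -y 1 + s * y 0 ≠ 0 := by
          apply aff_off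
          rcases hy0 with h | h
          · exact Or.inr h
          · exact Or.inl (neg_ne_zero.2 h)
        filter_upwards [h3] with s hs _ _
        unfold sc
        change S y !₂[(1 : ℝ), s, 0] ≠ 0
        have e : S y !₂[(1 : ℝ), s, 0] = -y 1 + s * y 0 := by
          simp [Sym.S]; ring
        rw [e]; exact hs
      · exact Eventually.of_forall fun s _ h => absurd h hS
    · exact Eventually.of_forall fun s h => absurd h hab
  obtain ⟨s, hs⟩ := (eventually_all.2 hbad).exists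
  refine ⟨!₂[(1 : ℝ), s, 0], ?_⟩
  have e1 : ∀ v : V, ∀ᶠ ε in 𝓝[>] (0 : ℝ), tl n !₂[(1 : ℝ), s, 0] ε (p v) 0 ≠ 0 ∨
      tl n !₂[(1 : ℝ), s, 0] ε (p v) 1 ≠ 0 := by
    intro v
    rcases hor v with h | h
    · filter_upwards [aff_off (x := p v 0) (y := dot n (p v)) (Or.inl h)] with ε hε
      left
      rw [tl_apply]
      simpa using hε
    · filter_upwards [aff_off (x := p v 1) (y := dot n (p v) * s) (Or.inl h)] with ε hε
      right
      rw [tl_apply]
      have : (p v + (ε * dot n (p v)) • (!₂[(1 : ℝ), s, 0] : E3)) 1 =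
          p v 1 + ε * (dot n (p v) * s) := by simp; ring
      rw [this]; exact hε
  have e2 : ∀ ab : V × V, ∀ᶠ ε in 𝓝[>] (0 : ℝ), G.Adj ab.1 ab.2 →
      S (tl n !₂[(1 : ℝ), s, 0] ε (p ab.1)) (tl n !₂[(1 : ℝ), s, 0] ε (p ab.2)) ≠ 0 := by
    rintro ⟨a, b⟩
    by_cases hab : G.Adj a b
    · have h1 : S (p a) (p b) ≠ 0 ∨ sc n !₂[(1 : ℝ), s, 0] (p a) (p b) ≠ 0 := by
        by_cases hS : S (p a) (p b) = 0
        · exact Or.inr (hs (a, b) hab hS)
        · exact Or.inl hS
      filter_upwards [aff_off h1] with ε hε _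
      rw [tl_S]; exact hε
    · exact Eventually.of_forall fun ε h => absurd h hab
  filter_upwards [eventually_all.2 e1, eventually_all.2 e2] with ε h1 h2
  exact ⟨h1, fun a b hab => h2 (a, b) hab⟩

theorem ctx_ev [Finite V] (Φ : Fan G p F) (hn : 0 < n 2)
    (un : ∀ a b, G.Adj a b → 0 < dot n (p a) → 0 ≤ dot n (p b))
    (hF : F n1 n2 n3) (hN : OC p n1 n2 n3 north) {η : E3}
    (hη : ∀ᶠ ε in 𝓝[>] (0 : ℝ), Tilt G (fun v => tl n η ε (p v))) :
    ∀ᶠ ε in 𝓝[>] (0 : ℝ), Ctx G (fun v => tl n η ε (p v)) F (fun v => dot n (p v))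
      n1 n2 n3 := by
  obtain ⟨k1, k2, k3⟩ := oc_north_pos (Φ.pos _ _ _ hF) hN
  filter_upwards [hη, Sym.eventually_pos (x := 1) (y := dot n η) one_pos,
    Sym.eventually_pos (y := sc n η (p n1) (p n2)) k1,
    Sym.eventually_pos (y := sc n η (p n2) (p n3)) k2,
    Sym.eventually_pos (y := sc n η (p n3) (p n1)) k3] with ε hT hδ l1 l2 l3
  have Φ' : Fan G (fun v => tl n η ε (p v)) F :=
    Φ.map (tl n η ε) (tl n η (-ε / (1 + ε * dot n η))) (tl_inv η ε hδ.ne')
      (tl_inv' η ε hδ.ne') hδ (tl_Dt η ε)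
  refine ⟨Φ', hT, ?_, un, hF, ?_⟩
  · intro a b c h
    rw [tl_DD]
    exact mul_pos hn (Φ.pos _ _ _ h)
  · apply oc_of_pos (Φ'.pos _ _ _ hF)
    · rw [tl_S]; exact l1
    · rw [tl_S]; exact l2
    · rw [tl_S]; exact l3

open Classical in
theorem limit_k [Fintype V] (Φ : Fan G p F) (hor : ∀ v, p v 0 ≠ 0 ∨ p v 1 ≠ 0)
    (hn : 0 < n 2) (un : ∀ a b, G.Adj a b → 0 < dot n (p a) → 0 ≤ dot n (p b))
    (hF : F n1 n2 n3) (hN : OC p n1 n2 n3 north) : ∃ k : V → ℝ, ‖k‖ = 1 ∧
    (∀ v, dot n (p v) < 0 → k v = 0) ∧ k n1 = 0 ∧ k n2 = 0 ∧ DD p k n1 n2 n3 ≤ 0 ∧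
    ∀ a b c, F a b c → Up p n a b c → ¬ OC p a b c north → 0 ≤ DD p k a b c ∧
      n 2 * Dt (p a) (p b) (p c) * DD p k a b c *
        (S (p n1) (p n2) * S (p n2) (p n3) * S (p n3) (p n1)) ≤
        (Fintype.card V : ℝ) ^ 3 * |S (p a) (p b) * S (p b) (p c) * S (p c) (p a)| *
          (n 2 * Dt (p n1) (p n2) (p n3) * (-DD p k n1 n2 n3)) := by
  obtain ⟨η, hη⟩ := exists_tilt (n := n) Φ hor hn
  have hev := ctx_ev Φ hn un hF hN hη
  have hseq : ∀ j : ℕ, ∃ ε : ℝ, (0 < ε ∧ ε < 1 / ((j : ℝ) + 1)) ∧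
      Ctx G (fun v => tl n η ε (p v)) F (fun v => dot n (p v)) n1 n2 n3 := by
    intro j
    have hj : (0 : ℝ) < 1 / ((j : ℝ) + 1) := Nat.one_div_pos_of_nat
    exact ((show ∀ᶠ ε in 𝓝[>] (0 : ℝ), 0 < ε ∧ ε < 1 / ((j : ℝ) + 1) from
      Ioo_mem_nhdsGT hj).and hev).exists
  choose ε hε C using hseq
  have hmain := fun j => (C j).main
  choose k hk1 hk2 hk3 hk4 hk5 hk6 using hmain
  have hcomp : IsCompact (Metric.sphere (0 : V → ℝ) 1) := isCompact_sphere 0 1
  obtain ⟨κ, hκ, φ, hφ, hlim⟩ := hcomp.tendsto_subseq (x := k) (fun j => by simp [hk1 j])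
  have hε0 : Tendsto (ε ∘ φ) atTop (𝓝 0) := by
    have h1 : Tendsto ε atTop (𝓝 0) :=
      tendsto_of_tendsto_of_tendsto_of_le_of_le tendsto_const_nhds
        tendsto_one_div_add_atTop_nhds_zero_nat (fun j => (hε j).1.le) (fun j => (hε j).2.le)
    exact h1.comp hφ.tendsto_atTop
  have hpair : Tendsto (fun j => ((ε ∘ φ) j, (k ∘ φ) j)) atTop (𝓝 ((0 : ℝ), κ)) :=
    hε0.prodMk_nhds hlim
  have hv : ∀ v, Tendsto (fun j => k (φ j) v) atTop (𝓝 (κ v)) := fun v =>
    (tendsto_pi_nhds.1 hlim) v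
  -- continuity
  have cS : ∀ x y : E3, Continuous fun w : ℝ × (V → ℝ) => S x y + w.1 * sc n η x y := by
    intro x y; fun_prop
  have cD : ∀ a b c : V, Continuous fun w : ℝ × (V → ℝ) =>
      w.2 a * (S (p b) (p c) + w.1 * sc n η (p b) (p c)) +
      w.2 b * (S (p c) (p a) + w.1 * sc n η (p c) (p a)) +
      w.2 c * (S (p a) (p b) + w.1 * sc n η (p a) (p b)) := by
    intro a b c; fun_prop
  have eD : ∀ (t : ℝ) (f : V → ℝ) a b c, DD (fun v => tl n η t (p v)) f a b c =
      f a * (S (p b) (p c) + t * sc n η (p b) (p c)) +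
      f b * (S (p c) (p a) + t * sc n η (p c) (p a)) +
      f c * (S (p a) (p b) + t * sc n η (p a) (p b)) := by
    intro t f a b c
    unfold Sym.DD
    rw [tl_S, tl_S, tl_S]
  have eD0 : ∀ (f : V → ℝ) a b c, DD p f a b c =
      f a * (S (p b) (p c) + 0 * sc n η (p b) (p c)) +
      f b * (S (p c) (p a) + 0 * sc n η (p c) (p a)) +
      f c * (S (p a) (p b) + 0 * sc n η (p a) (p b)) := by
    intro f a b c
    unfold Sym.DD
    ring
  have limD : ∀ a b c, Tendsto (fun j => DD (fun v => tl n η (ε (φ j)) (p v)) (k (φ j)) a b c)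
      atTop (𝓝 (DD p κ a b c)) := by
    intro a b c
    simp only [eD, eD0]
    exact ((cD a b c).tendsto ((0 : ℝ), κ)).comp hpair
  have limS : ∀ x y : E3, Tendsto (fun j => S x y + ε (φ j) * sc n η x y) atTop
      (𝓝 (S x y)) := by
    intro x y
    have h1 : Tendsto (fun j => S x y + ε (φ j) * sc n η x y) atTop
        (𝓝 (S x y + 0 * sc n η x y)) := tendsto_const_nhds.add (hε0.mul_const _)
    rwa [zero_mul, add_zero] at h1
  refine ⟨κ, by simpa using hκ, ?_, ?_, ?_, ?_, ?_⟩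
  · intro v hv0
    refine tendsto_nhds_unique (hv v) ?_
    have : (fun j => k (φ j) v) = fun _ => 0 := by
      funext j; exact hk2 (φ j) v hv0
    rw [this]; exact tendsto_const_nhds
  · refine tendsto_nhds_unique (hv n1) ?_
    have : (fun j => k (φ j) n1) = fun _ => 0 := by
      funext j; exact hk3 (φ j)
    rw [this]; exact tendsto_const_nhds
  · refine tendsto_nhds_unique (hv n2) ?_
    have : (fun j => k (φ j) n2) = fun _ => 0 := by
      funext j; exact hk4 (φ j)
    rw [this]; exact tendsto_const_nhds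
  · exact le_of_tendsto' (limD n1 n2 n3) fun j => hk5 (φ j)
  · intro a b c hf hu hNn
    have hNj : ∀ j, ¬ OC (fun v => tl n η (ε j) (p v)) a b c north := by
      intro j hO
      apply hNn
      rcases (C j).Φ.same _ _ _ _ _ _ hF hf _ (C j).hN hO with ⟨rfl, rfl, rfl⟩ |
        ⟨rfl, rfl, rfl⟩ | ⟨rfl, rfl, rfl⟩
      · exact hN
      · exact hN.rot
      · exact hN.rot.rot
    constructor
    · exact ge_of_tendsto' (limD a b c) fun j => (hk6 (φ j) a b c hf hu (hNj _)).1
    · have hL : Tendsto (fun j => n 2 * Dt (p a) (p b) (p c) *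
          DD (fun v => tl n η (ε (φ j)) (p v)) (k (φ j)) a b c *
          ((S (p n1) (p n2) + ε (φ j) * sc n η (p n1) (p n2)) *
          (S (p n2) (p n3) + ε (φ j) * sc n η (p n2) (p n3)) *
          (S (p n3) (p n1) + ε (φ j) * sc n η (p n3) (p n1)))) atTop
          (𝓝 (n 2 * Dt (p a) (p b) (p c) * DD p κ a b c *
          (S (p n1) (p n2) * S (p n2) (p n3) * S (p n3) (p n1)))) :=
        (tendsto_const_nhds.mul (limD a b c)).mul (((limS _ _).mul (limS _ _)).mul (limS _ _))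
      have hR : Tendsto (fun j => (Fintype.card V : ℝ) ^ 3 *
          |(S (p a) (p b) + ε (φ j) * sc n η (p a) (p b)) *
          (S (p b) (p c) + ε (φ j) * sc n η (p b) (p c)) *
          (S (p c) (p a) + ε (φ j) * sc n η (p c) (p a))| *
          (n 2 * Dt (p n1) (p n2) (p n3) *
          (-DD (fun v => tl n η (ε (φ j)) (p v)) (k (φ j)) n1 n2 n3))) atTop
          (𝓝 ((Fintype.card V : ℝ) ^ 3 *
          |S (p a) (p b) * S (p b) (p c) * S (p c) (p a)| *
          (n 2 * Dt (p n1) (p n2) (p n3) * (-DD p κ n1 n2 n3)))) :=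
        (tendsto_const_nhds.mul (((limS _ _).mul (limS _ _)).mul (limS _ _)).abs).mul
          (tendsto_const_nhds.mul (limD n1 n2 n3).neg)
      refine le_of_tendsto_of_tendsto' hL hR fun j => ?_
      have := (hk6 (φ j) a b c hf hu (hNj _)).2
      simp only [tl_DD, tl_S] at this
      exact this

end Pool.Agent.V11122.Cap
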