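import Pool.Agent.V11122.Cap.Fan

set_option autoImplicit false

/-! Growth through nonpolar faces; embeddings from heights. -/

namespace Pool.Agent.V11122.Cap

open Pool.Agent.V11122.Sink Filter Topology
open Pool.Agent.V11122.Sym (S Dt ext3 co InD EV OC CC Ad OnE nz Lf DD comp lift)

variable {V : Type} {G : SimpleGraph V} {p : V → E3} {F : V → V → V → Prop}

theorem cc_up {a b c : V} {x : E3} (h : CC p a b c x) (hN : OC p a b c north) {t : ℝ}
    (ht : 0 < t) : OC p a b c (x + t • north) := by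
  obtain ⟨h1, h2, h3⟩ := h
  obtain ⟨k1, k2, k3⟩ := hN
  refine ⟨?_, ?_, ?_⟩
  · rw [Sym.co_add, Sym.co_smul]; have := mul_pos ht k1; linarith
  · rw [Sym.co_add, Sym.co_smul]; have := mul_pos ht k2; linarith
  · rw [Sym.co_add, Sym.co_smul]; have := mul_pos ht k3; linarith

theorem Fan.cover1 [Finite V] (Φ : Fan G p F) {q : E3} {t z : ℝ} (hz : z < t)
    (hd : InD G p (q + t • north)) :
    ∃ a b c, (F a b c ∧ ¬ OC p a b c north) ∧ CC p a b c (q + z • north) := by
  obtain ⟨a, b, c, h1, h2⟩ := Φ.cc_cover (q + z • north)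
  refine ⟨a, b, c, ⟨h1, fun hN => ?_⟩, h2⟩
  have := cc_up h2 hN (t := t - z) (by linarith)
  rw [add_assoc, ← add_smul, show z + (t - z) = t by ring] at this
  exact Φ.off _ _ _ h1 _ this hd

theorem dot_add (n x y : E3) : dot n (x + y) = dot n x + dot n y := by
  unfold dot; simp only [PiLp.add_apply]; ring

theorem dot_smul (n x : E3) (r : ℝ) : dot n (r • x) = r * dot n x := by
  unfold dot; simp only [PiLp.smul_apply, smul_eq_mul]; ring

theorem dot_north (n : E3) : dot n north = n 2 := by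
  unfold dot; rw [Sym.north0, Sym.north1, Sym.north2]; ring

/-- an upper face -/
def Up (p : V → E3) (n : E3) (a b c : V) : Prop :=
  0 < dot n (p a) ∨ 0 < dot n (p b) ∨ 0 < dot n (p c)

theorem up_of_cc {n : E3} {a b c : V} (hD : Dt (p a) (p b) (p c) ≠ 0) {x : E3}
    (h : CC p a b c x) (hx : 0 < dot n x) : Up p n a b c := by
  have e := Sym.rep hD x
  have e2 : dot n x = co (p a) (p b) (p c) x * dot n (p a) +
      co (p b) (p c) (p a) x * dot n (p b) + co (p c) (p a) (p b) x * dot n (p c) := by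
    conv_lhs => rw [e]
    rw [dot_add, dot_add, dot_smul, dot_smul, dot_smul]
  by_contra hcon
  unfold Up at hcon
  push Not at hcon
  obtain ⟨k1, k2, k3⟩ := hcon
  have m1 := mul_nonpos_of_nonneg_of_nonpos h.1 k1
  have m2 := mul_nonpos_of_nonneg_of_nonpos h.2.1 k2
  have m3 := mul_nonpos_of_nonneg_of_nonpos h.2.2 k3
  linarith

theorem Fan.growthNP [Finite V] (Φ : Fan G p F) (g : V → ℝ) (m : ℝ)
    (hm : ∀ a b c, F a b c → ¬ OC p a b c north → m ≤ DD p g a b c / Dt (p a) (p b) (p c))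
    {q : E3} {t : ℝ} (ht : 0 < t) (hu : q 0 ≠ 0 ∨ q 1 ≠ 0)
    {w w' : ℝ} (hw : EV G p g q w) (hw' : EV G p g (q + t • north) w') :
    m * t ≤ w' - w :=
  Φ.growth (fun a b c => F a b c ∧ ¬ OC p a b c north) (fun _ _ _ h => h.1) g m
    (fun a b c h => hm a b c h.1 h.2) ht hu (fun _ _ hz => Φ.cover1 hz hw'.inD) hw hw'

theorem Fan.growthUp [Finite V] (Φ : Fan G p F) (g : V → ℝ) (m : ℝ) {n : E3} (hn : 0 < n 2)
    (hm : ∀ a b c, F a b c → ¬ OC p a b c north → Up p n a b c →
      m ≤ DD p g a b c / Dt (p a) (p b) (p c))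
    {q : E3} {t : ℝ} (ht : 0 < t) (hu : q 0 ≠ 0 ∨ q 1 ≠ 0) (hq : 0 ≤ dot n q)
    {w w' : ℝ} (hw : EV G p g q w) (hw' : EV G p g (q + t • north) w') :
    m * t ≤ w' - w := by
  refine Φ.growth (fun a b c => F a b c ∧ ¬ OC p a b c north ∧ Up p n a b c)
    (fun _ _ _ h => h.1) g m (fun a b c h => hm a b c h.1 h.2.1 h.2.2) ht hu ?_ hw hw'
  intro z hz0 hz
  obtain ⟨a, b, c, ⟨h1, h2⟩, h3⟩ := Φ.cover1 hz hw'.inD
  refine ⟨a, b, c, ⟨h1, h2, up_of_cc (Φ.pos _ _ _ h1).ne' h3 ?_⟩, h3⟩
  rw [dot_add, dot_smul, dot_north]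
  have := mul_pos hz0 hn
  linarith

theorem Fan.strict [Finite V] (Φ : Fan G p F) {g : V → ℝ}
    (hg : ∀ a b c, F a b c → ¬ OC p a b c north → 0 < DD p g a b c) {q q' : E3}
    (hu : q 0 ≠ 0 ∨ q 1 ≠ 0) (h0 : q 0 = q' 0)
    (h1 : q 1 = q' 1) {w w' : ℝ} (hw : EV G p g q w) (hw' : EV G p g q' w')
    (hlt : q 2 < q' 2) : w < w' := by
  classical
  haveI : Fintype V := Fintype.ofFinite V
  obtain ⟨m, hm, h⟩ := Sym.exists_lower
    (Finset.univ.filter fun x : V × V × V => F x.1 x.2.1 x.2.2 ∧ ¬ OC p x.1 x.2.1 x.2.2 north)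
    (fun x => DD p g x.1 x.2.1 x.2.2 / Dt (p x.1) (p x.2.1) (p x.2.2)) (by
      rintro ⟨a, b, c⟩ hx
      have hN : F a b c ∧ ¬ OC p a b c north := by simpa using hx
      exact div_pos (hg a b c hN.1 hN.2) (Φ.pos _ _ _ hN.1))
  have e := Sym.eq_vadd h0 h1
  have ht : 0 < q' 2 - q 2 := by linarith
  rw [e] at hw'
  have := Φ.growthNP g m (fun a b c hN hN' => h (a, b, c) (by simp [hN, hN'])) ht hu hw hw'
  have := mul_pos hm ht
  linarith

theorem EV_smul {g : V → ℝ} {q : E3} {w : ℝ} (h : EV G p g q w) {x : ℝ} (hx : 0 ≤ x) :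
    EV G p g (x • q) (x * w) := by
  obtain ⟨a, b, hab, r, s, hr, hs, e, rfl⟩ := h
  exact ⟨a, b, hab, x * r, x * s, mul_nonneg hx hr, mul_nonneg hx hs, by
    rw [e, smul_add, smul_smul, smul_smul], by ring⟩

/-- a point of the drawing on the axis lies below the origin and has negative value -/
theorem axis (hN : ¬ InD G p north) {g : V → ℝ} (hS : ∀ w, EV G p g (-north) w → w < 0)
    {q : E3} (hq : q ≠ 0) (h0 : q 0 = 0) (h1 : q 1 = 0) {w : ℝ} (hw : EV G p g q w) :
    q 2 < 0 ∧ EV G p g (-north) ((-q 2)⁻¹ * w) ∧ w < 0 := by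
  have h2 : q 2 ≠ 0 := by
    intro h
    exact hq (ext3 h0 h1 h)
  have hlt : q 2 < 0 := by
    rcases lt_or_gt_of_ne h2 with h | h
    · exact h
    · exfalso
      apply hN
      have := (EV_smul hw (inv_pos.2 h).le).inD
      have e : (q 2)⁻¹ • q = north := by
        apply ext3
        · simp [h0, Sym.north0]
        · simp [h1, Sym.north1]
        · simp [h2, Sym.north2]
      rwa [e] at this
  have hpos : 0 < (-q 2)⁻¹ := inv_pos.2 (by linarith)
  have hev := EV_smul hw hpos.le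
  have e : (-q 2)⁻¹ • q = -north := by
    apply ext3
    · simp [h0, Sym.north0]
    · simp [h1, Sym.north1]
    · simp [Sym.north2]
      exact inv_mul_cancel₀ h2
  rw [e] at hev
  refine ⟨hlt, hev, ?_⟩
  have := hS _ hev
  exact (pos_iff_neg_of_mul_neg_aux hpos this)
where
  pos_iff_neg_of_mul_neg_aux {x y : ℝ} (hx : 0 < x) (h : x * y < 0) : y < 0 := by
    by_contra hy
    push Not at hy
    have := mul_nonneg hx.le hy
    linarith

theorem Fan.inj_val [Finite V] (Φ : Fan G p F) (hN : ¬ InD G p north) {g : V → ℝ}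
    (hS : ∀ w, EV G p g (-north) w → w < 0)
    (hg : ∀ a b c, F a b c → ¬ OC p a b c north → 0 < DD p g a b c) {q q' : E3} (hq : q ≠ 0)
    (hq' : q' ≠ 0) (h0 : q 0 = q' 0) (h1 : q 1 = q' 1) {w : ℝ} (hw : EV G p g q w)
    (hw' : EV G p g q' w) : q = q' := by
  by_cases hu : q 0 ≠ 0 ∨ q 1 ≠ 0
  · rcases lt_trichotomy (q 2) (q' 2) with h | h | h
    · exact absurd (Φ.strict hg hu h0 h1 hw hw' h) (lt_irrefl _)
    · exact ext3 h0 h1 h
    · exact absurd (Φ.strict hg (by rw [← h0, ← h1]; exact hu) h0.symm h1.symm hw' hw h)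
        (lt_irrefl _)
  · push Not at hu
    obtain ⟨k1, k2, k3⟩ := axis hN hS hq hu.1 hu.2 hw
    obtain ⟨l1, l2, -⟩ := axis hN hS hq' (by rw [← h0]; exact hu.1)
      (by rw [← h1]; exact hu.2) hw'
    have hne : (-north : E3) ≠ 0 := by
      intro h
      have := congrArg (fun y : E3 => y 2) h
      simp [Sym.north2] at this
    have e := Φ.ev_unique hne k2 l2
    have e2 := mul_right_cancel₀ k3.ne e
    have e3 := inv_injective e2
    exact ext3 h0 h1 (by linarith)

theorem Fan.pos_embedding [Finite V] (Φ : Fan G p F) (emb : IsShortestPathEmbedding G p)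
    (hor : ∀ v, p v 0 ≠ 0 ∨ p v 1 ≠ 0) (hN : ¬ InD G p north) {g : V → ℝ}
    (hS : ∀ w, EV G p g (-north) w → w < 0)
    (hg : ∀ a b c, F a b c → ¬ OC p a b c north → 0 < DD p g a b c) :
    IsShortestPathEmbedding G (Sym.pos p g) := by
  have hl : ∀ v, lift p g v ≠ 0 := by
    intro v
    apply Sym.ne_zero_of_horiz
    rw [Sym.lift0, Sym.lift1]
    exact hor v
  have hr : ∀ v, 0 < ‖lift p g v‖⁻¹ := fun v => inv_pos.2 (norm_pos_iff.2 (hl v))
  have hpos : ∀ v, Sym.pos p g v = ‖lift p g v‖⁻¹ • lift p g v := fun v => rfl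
  have hunit : ∀ v, ‖Sym.pos p g v‖ = 1 := fun v => Sym.norm_nz (hl v)
  have hvert : ∀ v (r : ℝ), 0 ≤ r → EV G p g (r • p v) (r * g v) := fun v r hr =>
    ⟨v, v, Or.inl rfl, r, 0, hr, le_rfl, by simp, by ring⟩
  refine ⟨hunit, ?_, ?_, ?_, ?_⟩
  · intro a b h
    rw [hpos, hpos] at h
    have hra := hr a
    have hrb := hr b
    set ra := ‖lift p g a‖⁻¹
    set rb := ‖lift p g b‖⁻¹
    have k0 := congrArg (fun y : E3 => y 0) h
    have k1 := congrArg (fun y : E3 => y 1) h
    have k2 := congrArg (fun y : E3 => y 2) h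
    simp only [PiLp.smul_apply, smul_eq_mul, Sym.lift0, Sym.lift1, Sym.lift2] at k0 k1 k2
    have h1 := hvert a ra hra.le
    rw [k2] at h1
    have heq := Φ.inj_val hN hS hg (smul_ne_zero hra.ne' (Φ.ne a))
      (smul_ne_zero hrb.ne' (Φ.ne b)) (by simpa using k0) (by simpa using k1) h1
      (hvert b rb hrb.le)
    apply emb.inj
    rw [← Sym.nz_unit (emb.unit a), ← Sym.nz_unit (emb.unit b), ← Sym.nz_smul hra, heq,
      Sym.nz_smul hrb]
  · intro a b hab h
    rw [hpos, hpos] at h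
    have hra := hr a
    have hrb := hr b
    set ra := ‖lift p g a‖⁻¹
    set rb := ‖lift p g b‖⁻¹
    obtain ⟨k0, k1, k2⟩ := Sym.lift_comb (p := p) g a b ra rb
    have hz : ra • lift p g a + rb • lift p g b = 0 := by rw [h]; simp
    rw [hz] at k0 k1 k2
    have hq : ra • p a + rb • p b ≠ 0 := by
      intro h0
      exact hra.ne' (Φ.ind a b hab _ _ h0).1
    obtain ⟨-, -, h3⟩ := axis hN hS hq k0.symm k1.symm
      ⟨a, b, Or.inr hab, ra, rb, hra.le, hrb.le, rfl, k2⟩
    exact lt_irrefl _ h3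
  · rintro u v w hvw ⟨-, s, t, hs, ht, e⟩
    rw [hpos u, hpos v, hpos w, smul_smul, smul_smul] at e
    have hru := hr u
    have hrv := hr v
    have hrw := hr w
    set ru := ‖lift p g u‖⁻¹
    set rv := ‖lift p g v‖⁻¹
    set rw' := ‖lift p g w‖⁻¹
    obtain ⟨k0, k1, k2⟩ := Sym.lift_comb (p := p) g v w (s * rv) (t * rw')
    rw [← e] at k0 k1 k2
    have hq : ru • p u ≠ 0 := smul_ne_zero hru.ne' (Φ.ne u)
    have m0 : (ru • p u) 0 = ((s * rv) • p v + (t * rw') • p w) 0 := by
      rw [← k0]; simp [Sym.lift0]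
    have m1 : (ru • p u) 1 = ((s * rv) • p v + (t * rw') • p w) 1 := by
      rw [← k1]; simp [Sym.lift1]
    have hq' : (s * rv) • p v + (t * rw') • p w ≠ 0 := by
      intro h0
      obtain ⟨z1, z2⟩ := Φ.ind v w hvw _ _ h0
      rw [z1, z2, zero_smul, zero_smul, add_zero] at e
      exact smul_ne_zero hru.ne' (hl u) e
    have ev2 : EV G p g ((s * rv) • p v + (t * rw') • p w) (ru * g u) := by
      refine ⟨v, w, Or.inr hvw, s * rv, t * rw', by positivity, by positivity, rfl, ?_⟩
      rw [← k2]; simp [Sym.lift2]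
    have heq := Φ.inj_val hN hS hg hq hq' m0 m1 (hvert u ru hru.le) ev2
    apply emb.vertex_edge u v w hvw
    have hmem := Sym.nz_mem_arc hq (r := s * rv) (s := t * rw') (by positivity)
      (by positivity) heq
    rwa [Sym.nz_smul hru, Sym.nz_unit (emb.unit u)] at hmem
  · rintro a b c d hab hcd hne x ⟨hx, s, t, hs, ht, e⟩ ⟨-, s', t', hs', ht', e'⟩
    rw [hpos a, hpos b, smul_smul, smul_smul] at e
    rw [hpos c, hpos d, smul_smul, smul_smul] at e'
    have hra := hr a
    have hrb := hr b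
    have hrc := hr c
    have hrd := hr d
    set ra := ‖lift p g a‖⁻¹
    set rb := ‖lift p g b‖⁻¹
    set rc := ‖lift p g c‖⁻¹
    set rd := ‖lift p g d‖⁻¹
    obtain ⟨k0, k1, k2⟩ := Sym.lift_comb (p := p) g a b (s * ra) (t * rb)
    obtain ⟨l0, l1, l2⟩ := Sym.lift_comb (p := p) g c d (s' * rc) (t' * rd)
    rw [← e] at k0 k1 k2
    rw [← e'] at l0 l1 l2
    have hx0 : x ≠ 0 := by rintro rfl; simp at hx
    have hz : ∀ {y z : V} {α β : ℝ}, G.Adj y z → x = α • lift p g y + β • lift p g z →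
        α • p y + β • p z ≠ 0 := by
      intro y z α β hyz hxe h0
      obtain ⟨h1, h2⟩ := Φ.ind y z hyz _ _ h0
      apply hx0
      rw [hxe, h1, h2]; simp
    have hq := hz hab e
    have hq' := hz hcd e'
    have heq := Φ.inj_val hN hS hg hq hq' (k0.symm.trans l0) (k1.symm.trans l1)
      ⟨a, b, Or.inr hab, s * ra, t * rb, by positivity, by positivity, rfl, k2⟩
      ⟨c, d, Or.inr hcd, s' * rc, t' * rd, by positivity, by positivity, rfl, l2⟩
    rcases Φ.com _ _ _ _ (Or.inr hab) (Or.inr hcd) _ hq (s * ra) (t * rb) (s' * rc)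
      (t' * rd) (by positivity) (by positivity) (by positivity) (by positivity) rfl heq with
      ⟨v, l, hl0, h1, h2, h3⟩ | ⟨-, h⟩
    · refine ⟨v, h1, h2, ?_⟩
      have hv := Φ.val_at (Or.inr hab) h1 h3 g
      have hxl : x = l • lift p g v := by
        apply ext3
        · rw [k0, h3]; simp [Sym.lift0]
        · rw [k1, h3]; simp [Sym.lift1]
        · rw [k2, hv]; simp [Sym.lift2]
      rw [← Sym.nz_unit hx, hxl, Sym.nz_smul hl0]
      rfl
    · exfalso
      apply hne
      rcases h with ⟨rfl, rfl⟩ | ⟨rfl, rfl⟩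
      · rfl
      · exact Sym2.eq_swap

/-- the straight path of heights sinks the triangulation -/
theorem Fan.sink [Finite V] (Φ : Fan G p F) (emb : IsShortestPathEmbedding G p)
    (hor : ∀ v, p v 0 ≠ 0 ∨ p v 1 ≠ 0) (hN : ¬ InD G p north) {g : V → ℝ}
    (hneg : ∀ v, g v < 0)
    (hg : ∀ a b c, F a b c → ¬ OC p a b c north → 0 < DD p g a b c) : Sinkable G p := by
  let h : unitInterval → V → ℝ := fun t v => (1 - (t : ℝ)) * p v 2 + (t : ℝ) * g v
  have hDD : ∀ t a b c, F a b c → ¬ OC p a b c north → 0 < DD p (h t) a b c := by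
    intro t a b c hF hNn
    have h1 : DD p (h t) a b c = (1 - (t : ℝ)) * Dt (p a) (p b) (p c) +
        (t : ℝ) * DD p g a b c := by
      simp only [Sym.DD, Sym.Dt, h]; ring
    rw [h1]
    have h2 := Φ.pos _ _ _ hF
    have h3 := hg a b c hF hNn
    have h4 := t.2.1
    have h5 := t.2.2
    rcases h4.lt_or_eq with h6 | h6
    · have := mul_pos h6 h3
      have := mul_nonneg (sub_nonneg.2 h5) h2.le
      linarith
    · rw [← h6]; simpa using h2
  have hS : ∀ t w, EV G p (h t) (-north) w → w < 0 := by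
    rintro t w ⟨a, b, hab, r, s, hr, hs, e, rfl⟩
    have e2 : r * p a 2 + s * p b 2 = -1 := by
      have := congrArg (fun y : E3 => y 2) e
      simp [Sym.north2] at this
      linarith
    have hrs : 0 < r + s := by
      rcases (add_nonneg hr hs).lt_or_eq with h | h
      · exact h
      · exfalso
        have h1 : r = 0 := by linarith
        have h2 : s = 0 := by linarith
        rw [h1, h2] at e2
        linarith
    have e3 : r * g a + s * g b < 0 := by
      have m1 := mul_nonpos_of_nonneg_of_nonpos hr (hneg a).le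
      have m2 := mul_nonpos_of_nonneg_of_nonpos hs (hneg b).le
      rcases hr.lt_or_eq with h | h
      · have := mul_neg_of_pos_of_neg h (hneg a); linarith
      · have : 0 < s := by linarith
        have := mul_neg_of_pos_of_neg this (hneg b); linarith
    have e4 : r * h t a + s * h t b = (1 - (t : ℝ)) * (r * p a 2 + s * p b 2) +
        (t : ℝ) * (r * g a + s * g b) := by
      simp only [h]; ring
    rw [e4, e2]
    have h4 := t.2.1
    have h5 := t.2.2
    rcases h4.lt_or_eq with h6 | h6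
    · have := mul_neg_of_pos_of_neg h6 e3
      linarith
    · rw [← h6]; linarith
  have hl : ∀ (f : V → ℝ) v, lift p f v ≠ 0 := by
    intro f v
    apply Sym.ne_zero_of_horiz
    rw [Sym.lift0, Sym.lift1]
    exact hor v
  refine ⟨fun t => Sym.pos p (h t), ?_, ?_, fun t => Φ.pos_embedding emb hor hN (hS t) (hDD t),
    ?_, ?_⟩
  · apply continuous_pi
    intro v
    have hlc : Continuous fun t : unitInterval => lift p (h t) v := by
      apply (PiLp.continuous_toLp 2 _).comp
      apply continuous_pi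
      intro i
      fin_cases i
      · exact continuous_const
      · exact continuous_const
      · change Continuous fun t : unitInterval => (1 - (t : ℝ)) * p v 2 + (t : ℝ) * g v
        fun_prop
    change Continuous fun t : unitInterval => ‖lift p (h t) v‖⁻¹ • lift p (h t) v
    refine Continuous.smul (f := fun t : unitInterval => ‖lift p (h t) v‖⁻¹)
      (g := fun t : unitInterval => lift p (h t) v) ?_ hlc
    apply Continuous.inv₀ hlc.norm
    intro t
    exact (norm_pos_iff.2 (hl _ v)).ne'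
  · have : h 0 = fun v => p v 2 := by
      funext v; simp [h]
    simp only
    rw [this, Sym.pos_self emb]
  · intro t v
    refine ⟨Sym.norm_nz (hl _ v), ‖lift p (h t) v‖⁻¹, inv_pos.2 (norm_pos_iff.2 (hl _ v)),
      ?_, ?_⟩
    · simp only [Sym.pos, Sym.nz]; simp [Sym.lift0]
    · simp only [Sym.pos, Sym.nz]; simp [Sym.lift1]
  · intro v
    have : h 1 = g := by
      funext v; simp [h]
    simp only
    rw [this, Sym.pos_two]
    exact mul_neg_of_pos_of_neg (inv_pos.2 (norm_pos_iff.2 (hl _ v))) (hneg v)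

end Pool.Agent.V11122.Cap
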