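import Pool.Agent.V11122.Cap.Path

set_option autoImplicit false

/-! The quadratic identity for fans none of whose walls is vertical. -/

namespace Pool.Agent.V11122.Cap

open Pool.Agent.V11122.Sink Filter Topology
open Pool.Agent.V11122.Sym (S Dt ext3 co InD EV OC CC Ad OnE nz DD W)

variable {V : Type} {G : SimpleGraph V} {p : V → E3} {F : V → V → V → Prop}

theorem Fan.edge_mid (Φ : Fan G p F) {x y a b : V}
    (hxy : G.Adj x y) (hab : G.Adj a b) {r s : ℝ} (hr : 0 ≤ r) (hs : 0 ≤ s)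
    (e : p x + p y = r • p a + s • p b) : (x = a ∧ y = b) ∨ (x = b ∧ y = a) := by
  have e1 : p x + p y = (1 : ℝ) • p x + (1 : ℝ) • p y := by rw [one_smul, one_smul]
  have hne : p x + p y ≠ 0 := by
    intro h
    rw [e1] at h
    exact one_ne_zero (Φ.ind x y hxy _ _ h).1
  rcases Φ.com _ _ _ _ (Or.inr hxy) (Or.inr hab) _ hne _ _ _ _ zero_le_one zero_le_one hr hs
    e1 e with ⟨v, l, -, h1, -, h3⟩ | ⟨-, h⟩
  · exfalso
    rcases h1 with rfl | rfl
    · have := Φ.eq2 hxy (r := 1) (s := 1) (r' := l) (s' := 0) (by rw [← e1, h3]; simp)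
      exact one_ne_zero this.2
    · have := Φ.eq2 hxy (r := 1) (s := 1) (r' := 0) (s' := l) (by rw [← e1, h3]; simp)
      exact one_ne_zero this.1
  · exact h

/-- no vertex on the axis, no edge in a vertical plane -/
structure Tilt (G : SimpleGraph V) (p : V → E3) : Prop where
  hor : ∀ v, p v 0 ≠ 0 ∨ p v 1 ≠ 0
  adj : ∀ a b, G.Adj a b → S (p a) (p b) ≠ 0

theorem Tilt.mid (T : Tilt G p) {x y : V} (hxy : G.Adj x y) :
    (p x + p y) 0 ≠ 0 ∨ (p x + p y) 1 ≠ 0 := by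
  by_contra h
  push Not at h
  obtain ⟨h0, h1⟩ := h
  simp only [PiLp.add_apply] at h0 h1
  have := Sym.horiz_eq (r := 1) (s := 1) (r' := 0) (s' := 0) (T.adj x y hxy) (by linarith)
    (by linarith)
  exact one_ne_zero this.1

theorem Tilt.vert (T : Tilt G p) {a b : V} (hab : Ad G a b) {q q' : E3} (h0 : q 0 = q' 0)
    (h1 : q 1 = q' 1) (hq : q 0 ≠ 0 ∨ q 1 ≠ 0) {r s r' s' : ℝ}
    (e : q = r • p a + s • p b) (e' : q' = r' • p a + s' • p b) : q = q' := by
  have c0 : r * p a 0 + s * p b 0 = r' * p a 0 + s' * p b 0 := by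
    rw [e, e'] at h0; simpa using h0
  have c1 : r * p a 1 + s * p b 1 = r' * p a 1 + s' * p b 1 := by
    rw [e, e'] at h1; simpa using h1
  rcases hab with hab | hab
  · subst hab
    have d0 : q 0 = (r + s) * p a 0 := by rw [e]; simp; ring
    have d1 : q 1 = (r + s) * p a 1 := by rw [e]; simp; ring
    have hrs : r + s = r' + s' := by
      rcases hq with h | h
      · rw [d0] at h
        have h2 := right_ne_zero_of_mul h
        apply mul_right_cancel₀ h2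
        linarith
      · rw [d1] at h
        have h2 := right_ne_zero_of_mul h
        apply mul_right_cancel₀ h2
        linarith
    rw [e, e', ← add_smul, ← add_smul, hrs]
  · obtain ⟨h2, h3⟩ := Sym.horiz_eq (T.adj a b hab) c0 c1
    rw [e, e', h2, h3]

theorem Tilt.off [Finite V] (T : Tilt G p) {q : E3} (hq : q 0 ≠ 0 ∨ q 1 ≠ 0) {σ : ℝ}
    (hσ : σ ≠ 0) : ∀ᶠ t in 𝓝[>] (0 : ℝ), ¬ InD G p (q + (t * σ) • north) := by
  have key : ∀ ab : V × V, ∀ᶠ t in 𝓝[>] (0 : ℝ),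
      t ∉ {t : ℝ | Ad G ab.1 ab.2 ∧
        ∃ r s : ℝ, q + (t * σ) • north = r • p ab.1 + s • p ab.2} := by
    rintro ⟨a, b⟩
    apply Sym.ev_subs
    rintro t ⟨hab, r, s, e⟩ t' ⟨-, r', s', e'⟩
    have := T.vert hab (by rw [Sym.vadd0, Sym.vadd0]) (by rw [Sym.vadd1, Sym.vadd1])
      (by rw [Sym.vadd0, Sym.vadd1]; exact hq) e e'
    have h2 := congrArg (fun y : E3 => y 2) this
    simp only [Sym.vadd2] at h2
    exact mul_right_cancel₀ hσ (by linarith)
  filter_upwards [eventually_all.2 key] with t ht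
  rintro ⟨a, b, hab, r, s, -, -, e⟩
  exact ht (a, b) ⟨hab, r, s, e⟩

theorem Fan.dir [Finite V] (Φ : Fan G p F) (T : Tilt G p) {σ : ℝ} (hσ : σ ≠ 0) {q : E3}
    (hq : q 0 ≠ 0 ∨ q 1 ≠ 0) : ∃ a b c, F a b c ∧ CC p a b c q ∧
      ∃ᶠ t in 𝓝[>] (0 : ℝ), OC p a b c (q + (t * σ) • north) := by
  have hoff := T.off hq hσ
  by_contra hcon
  push Not at hcon
  have hall : ∀ x : V × V × V, ∀ᶠ t in 𝓝[>] (0 : ℝ),
      ¬ (F x.1 x.2.1 x.2.2 ∧ OC p x.1 x.2.1 x.2.2 (q + (t * σ) • north)) := by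
    rintro ⟨a', b', c'⟩
    by_cases hN : F a' b' c'
    · by_cases hC : CC p a' b' c' q
      · have := hcon a' b' c' hN hC
        filter_upwards [this] with t ht
        exact fun h => ht h.2
      · have : ¬ ∃ᶠ t in 𝓝[>] (0 : ℝ), OC p a' b' c' (q + (t * σ) • north) := by
          intro hf
          apply hC
          refine ⟨?_, ?_, ?_⟩
          · apply Sym.frequently_pos_lim (y := σ * S (p b') (p c') / Dt (p a') (p b') (p c'))
            exact hf.mono fun t h => by have := h.1; rwa [Sym.co_up] at this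
          · apply Sym.frequently_pos_lim (y := σ * S (p c') (p a') / Dt (p b') (p c') (p a'))
            exact hf.mono fun t h => by have := h.2.1; rwa [Sym.co_up] at this
          · apply Sym.frequently_pos_lim (y := σ * S (p a') (p b') / Dt (p c') (p a') (p b'))
            exact hf.mono fun t h => by have := h.2.2; rwa [Sym.co_up] at this
        rw [not_frequently] at this
        filter_upwards [this] with t ht
        exact fun h => ht h.2
    · exact Eventually.of_forall fun t h => hN h.1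
  obtain ⟨t, h1, h2⟩ := (hoff.and (eventually_all.2 hall)).exists
  have hne : q + (t * σ) • north ≠ 0 := by
    apply Sym.ne_zero_of_horiz
    rw [Sym.vadd0, Sym.vadd1]; exact hq
  obtain ⟨a, b, c, h3, h4⟩ := Φ.cov _ hne h1
  exact h2 (a, b, c) ⟨h3, h4⟩

theorem Fan.ev_oc (Φ : Fan G p F) {x y z : V} (h : F x y z) {σ : ℝ}
    (hs : 0 < σ * S (p x) (p y)) :
    ∀ᶠ t in 𝓝[>] (0 : ℝ), OC p x y z (p x + p y + (t * σ) • north) := by
  have hD := Φ.pos _ _ _ h
  have e : p x + p y = (1 : ℝ) • p x + (1 : ℝ) • p y + (0 : ℝ) • p z := by simp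
  obtain ⟨c1, c2, c3⟩ := Sym.co_of_rep hD.ne' e
  have r2 : Dt (p z) (p x) (p y) = Dt (p x) (p y) (p z) := by rw [← Sym.Dt_rot (p z)]
  filter_upwards [Sym.eventually_pos (y := σ * S (p y) (p z) / Dt (p x) (p y) (p z)) one_pos,
    Sym.eventually_pos (y := σ * S (p z) (p x) / Dt (p y) (p z) (p x)) one_pos,
    self_mem_nhdsWithin] with t h1 h2 ht
  refine ⟨?_, ?_, ?_⟩
  · rw [Sym.co_up, c1]; exact h1
  · rw [Sym.co_up, c2]; exact h2
  · rw [Sym.co_up, c3, zero_add, r2]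
    exact mul_pos ht (div_pos hs hD)

theorem Fan.nf_edge (Φ : Fan G p F) {σ : ℝ} {x y a b c : V}
    (hxy : G.Adj x y) (hs : 0 < σ * S (p x) (p y)) (h : F a b c)
    {r s : ℝ} (hr : 0 ≤ r) (hs' : 0 ≤ s) (e : p x + p y = r • p a + s • p b)
    (hf : ∃ᶠ t in 𝓝[>] (0 : ℝ), OC p a b c (p x + p y + (t * σ) • north)) : F x y c := by
  rcases Φ.edge_mid hxy (Φ.ab _ _ _ h) hr hs' e with ⟨rfl, rfl⟩ | ⟨rfl, rfl⟩
  · exact h
  · exfalso
    have hD := Φ.pos _ _ _ h
    obtain ⟨t, h1, ht⟩ := (hf.and_eventually self_mem_nhdsWithin).exists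
    obtain ⟨-, -, c3⟩ := Sym.co_of_rep (q := p x + p y) (r := 1) (s := 1) (t := 0) hD.ne'
      (by simp [add_comm])
    have r2 : Dt (p c) (p y) (p x) = Dt (p y) (p x) (p c) := by rw [← Sym.Dt_rot (p c)]
    have h2 := h1.2.2
    rw [Sym.co_up, c3, zero_add, r2, Sym.S_anti] at h2
    have h3 : σ * -S (p x) (p y) / Dt (p y) (p x) (p c) < 0 :=
      div_neg_of_neg_of_pos (by linarith) hD
    have := mul_neg_of_pos_of_neg (show (0 : ℝ) < t from ht) h3
    linarith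

theorem Fan.left_exists [Finite V] (Φ : Fan G p F) (T : Tilt G p) {x y : V}
    (hxy : G.Adj x y) : ∃ z, F x y z := by
  obtain ⟨σ, hσ, hs⟩ := Sym.sgn_cases (T.adj x y hxy)
  have hσ0 : σ ≠ 0 := by rcases hσ with h | h <;> rw [h] <;> norm_num
  have hd : InD G p (p x + p y) := ⟨x, y, Or.inr hxy, 1, 1, zero_le_one, zero_le_one, by simp⟩
  obtain ⟨a', b', c', h, hc, hf⟩ := Φ.dir T hσ0 (T.mid hxy)
  rcases Φ.onE h hc hd with ⟨r, s, hr, hs', e⟩ | ⟨r, s, hr, hs', e⟩ | ⟨r, s, hr, hs', e⟩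
  · exact ⟨_, Φ.nf_edge hxy hs h hr hs' e hf⟩
  · exact ⟨_, Φ.nf_edge hxy hs (Φ.rot _ _ _ h) hr hs' e (hf.mono fun t ht => ht.rot)⟩
  · exact ⟨_, Φ.nf_edge hxy hs (Φ.rot _ _ _ (Φ.rot _ _ _ h)) hr hs' e
      (hf.mono fun t ht => ht.rot.rot)⟩

theorem Fan.left_unique [Finite V] (Φ : Fan G p F) (T : Tilt G p) {x y z z' : V}
    (h : F x y z) (h' : F x y z') : z' = z := by
  obtain ⟨σ, -, hs⟩ := Sym.sgn_cases (T.adj x y (Φ.ab _ _ _ h))
  obtain ⟨t, h1, h2⟩ := ((Φ.ev_oc h hs).and (Φ.ev_oc h' hs)).exists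
  rcases Φ.same _ _ _ _ _ _ h h' _ h1 h2 with ⟨-, -, e⟩ | ⟨e, -, -⟩ | ⟨e, -, -⟩
  · exact e
  · exact absurd e (Φ.ab _ _ _ h).ne
  · exact absurd e (Φ.ca h).ne'

open Classical in
theorem Fan.edge_ind [Fintype V] (Φ : Fan G p F) (T : Tilt G p) (f : V → V → ℝ) (x y : V) :
    (if G.Adj x y then f x y else 0) = ∑ z, if F x y z then f x y else 0 := by
  by_cases hxy : G.Adj x y
  · rw [if_pos hxy]
    obtain ⟨z, hz⟩ := Φ.left_exists T hxy
    rw [Finset.sum_eq_single z]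
    · rw [if_pos hz]
    · intro z' _ hz'
      rw [if_neg]
      intro h
      exact hz' (Φ.left_unique T hz h)
    · intro h; exact absurd (Finset.mem_univ z) h
  · rw [if_neg hxy, Finset.sum_eq_zero]
    intro z _
    rw [if_neg fun h => hxy (Φ.ab _ _ _ h)]

open Classical in
theorem Fan.face_sum [Fintype V] (Φ : Fan G p F) (T : Tilt G p) (f : V → V → ℝ)
    (hf : ∀ x y, f y x = -f x y) :
    (∑ x, ∑ y, ∑ z, if F x y z then f x y + f y z + f z x else 0) = 0 := by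
  have h0 := Sym.anti_sum (G := G) f hf
  simp only [Φ.edge_ind T f] at h0
  have rot : ∀ x y z, F x y z ↔ F y z x :=
    fun x y z => ⟨fun h => Φ.rot _ _ _ h, fun h => Φ.rot _ _ _ (Φ.rot _ _ _ h)⟩
  have e1 : (∑ x, ∑ y, ∑ z, if F x y z then f y z else 0) =
      ∑ x, ∑ y, ∑ z, if F x y z then f x y else 0 := by
    rw [Finset.sum_comm]
    apply Finset.sum_congr rfl
    intro y _
    rw [Finset.sum_comm]
    apply Finset.sum_congr rfl
    intro z _
    apply Finset.sum_congr rfl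
    intro x _
    simp only [rot x y z]
  have e2 : (∑ x, ∑ y, ∑ z, if F x y z then f z x else 0) =
      ∑ x, ∑ y, ∑ z, if F x y z then f x y else 0 := by
    have : (∑ x, ∑ y, ∑ z, if F x y z then f z x else 0) =
        ∑ z, ∑ x, ∑ y, if F x y z then f z x else 0 := by
      have h1 : ∀ x, (∑ y, ∑ z, if F x y z then f z x else 0) =
          ∑ z, ∑ y, if F x y z then f z x else 0 := fun x => Finset.sum_comm
      simp only [h1]
      rw [Finset.sum_comm]
    rw [this]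
    apply Finset.sum_congr rfl
    intro z _
    apply Finset.sum_congr rfl
    intro x _
    apply Finset.sum_congr rfl
    intro y _
    rw [rot z x y]
  have e3 : (∑ x, ∑ y, ∑ z, if F x y z then f x y + f y z + f z x else 0) =
      (∑ x, ∑ y, ∑ z, if F x y z then f x y else 0) +
      (∑ x, ∑ y, ∑ z, if F x y z then f y z else 0) +
      (∑ x, ∑ y, ∑ z, if F x y z then f z x else 0) := by
    simp only [← Finset.sum_add_distrib]
    apply Finset.sum_congr rfl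
    intro x _
    apply Finset.sum_congr rfl
    intro y _
    apply Finset.sum_congr rfl
    intro z _
    by_cases h : F x y z
    · simp only [if_pos h]
    · simp only [if_neg h]; ring
  rw [e3, e1, e2]
  linarith

open Classical in
/-- the quadratic identity -/
theorem Fan.quad [Fintype V] (Φ : Fan G p F) (T : Tilt G p) (g h : V → ℝ) :
    (∑ x, ∑ y, ∑ z, if F x y z then W p x y z * DD p g x y z * DD p h x y z else 0) = 0 := by
  have key := Φ.face_sum T (Sym.qf p g h) (Sym.qf_anti g h)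
  have hd : ∀ v, Sym.dh (p v) (p v) ≠ 0 := fun v => Sym.dh_ne (T.hor v)
  refine Eq.trans ?_ key
  apply Finset.sum_congr rfl
  intro x _
  apply Finset.sum_congr rfl
  intro y _
  apply Finset.sum_congr rfl
  intro z _
  by_cases hN : F x y z
  · rw [if_pos hN, if_pos hN, Sym.qf_sum g h (T.adj _ _ (Φ.ab _ _ _ hN)) (T.adj _ _ (Φ.bc hN))
      (T.adj _ _ (Φ.ca hN)) (hd _) (hd _) (hd _)]
  · rw [if_neg hN, if_neg hN]

/-! ### faces with a middle vertex -/

structure MidF (F : V → V → V → Prop) (p : V → E3) (τ : ℝ) (m b c : V) : Prop where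
  f : F m b c
  s1 : 0 < τ * S (p m) (p b)
  s2 : τ * S (p b) (p c) < 0
  s3 : 0 < τ * S (p c) (p m)

theorem oc_north_pos {a b c : V} (hD : 0 < Dt (p a) (p b) (p c)) (h : OC p a b c north) :
    0 < S (p a) (p b) ∧ 0 < S (p b) (p c) ∧ 0 < S (p c) (p a) := by
  have r1 : Dt (p b) (p c) (p a) = Dt (p a) (p b) (p c) := Sym.Dt_rot _ _ _
  have r2 : Dt (p c) (p a) (p b) = Dt (p a) (p b) (p c) := by rw [← Sym.Dt_rot (p c)]
  obtain ⟨h1, h2, h3⟩ := h
  rw [Sym.co_north] at h1 h2 h3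
  rw [r1] at h2
  rw [r2] at h3
  refine ⟨?_, ?_, ?_⟩
  · have := mul_pos h3 hD; rwa [div_mul_cancel₀ _ hD.ne'] at this
  · have := mul_pos h1 hD; rwa [div_mul_cancel₀ _ hD.ne'] at this
  · have := mul_pos h2 hD; rwa [div_mul_cancel₀ _ hD.ne'] at this

theorem oc_of_pos {a b c : V} (hD : 0 < Dt (p a) (p b) (p c)) (h1 : 0 < S (p a) (p b))
    (h2 : 0 < S (p b) (p c)) (h3 : 0 < S (p c) (p a)) : OC p a b c north := by
  have r1 : Dt (p b) (p c) (p a) = Dt (p a) (p b) (p c) := Sym.Dt_rot _ _ _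
  have r2 : Dt (p c) (p a) (p b) = Dt (p a) (p b) (p c) := by rw [← Sym.Dt_rot (p c)]
  refine ⟨?_, ?_, ?_⟩
  · rw [Sym.co_north]; exact div_pos h2 hD
  · rw [Sym.co_north, r1]; exact div_pos h3 hD
  · rw [Sym.co_north, r2]; exact div_pos h1 hD

theorem Fan.mid_cases (Φ : Fan G p F) (T : Tilt G p) {a b c : V} (h : F a b c) :
    OC p a b c north ∨ (S (p a) (p b) < 0 ∧ S (p b) (p c) < 0 ∧ S (p c) (p a) < 0) ∨
    ∃ τ : ℝ, (τ = 1 ∨ τ = -1) ∧
      (MidF F p τ a b c ∨ MidF F p τ b c a ∨ MidF F p τ c a b) := by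
  have hA := T.adj _ _ (Φ.ab _ _ _ h)
  have hB := T.adj _ _ (Φ.bc h)
  have hC := T.adj _ _ (Φ.ca h)
  have hD := Φ.pos _ _ _ h
  have h' := Φ.rot _ _ _ h
  have h'' := Φ.rot _ _ _ h'
  rcases lt_or_gt_of_ne hA with kA | kA <;> rcases lt_or_gt_of_ne hB with kB | kB <;>
    rcases lt_or_gt_of_ne hC with kC | kC
  · exact Or.inr (Or.inl ⟨kA, kB, kC⟩)
  · exact Or.inr (Or.inr ⟨-1, Or.inr rfl, Or.inr (Or.inl ⟨h', by linarith, by linarith,
      by linarith⟩)⟩)
  · exact Or.inr (Or.inr ⟨-1, Or.inr rfl, Or.inl ⟨h, by linarith, by linarith, by linarith⟩⟩)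
  · exact Or.inr (Or.inr ⟨1, Or.inl rfl, Or.inr (Or.inr ⟨h'', by linarith, by linarith,
      by linarith⟩)⟩)
  · exact Or.inr (Or.inr ⟨-1, Or.inr rfl, Or.inr (Or.inr ⟨h'', by linarith, by linarith,
      by linarith⟩)⟩)
  · exact Or.inr (Or.inr ⟨1, Or.inl rfl, Or.inl ⟨h, by linarith, by linarith, by linarith⟩⟩)
  · exact Or.inr (Or.inr ⟨1, Or.inl rfl, Or.inr (Or.inl ⟨h', by linarith, by linarith,
      by linarith⟩)⟩)
  · exact Or.inl (oc_of_pos hD kA kB kC)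

theorem MidF.ev (Φ : Fan G p F) {τ : ℝ} {m b c : V} (h : MidF F p τ m b c) :
    ∀ᶠ t in 𝓝[>] (0 : ℝ), OC p m b c (p m + (t * τ) • north) := by
  have hD := Φ.pos _ _ _ h.f
  have r1 : Dt (p b) (p c) (p m) = Dt (p m) (p b) (p c) := Sym.Dt_rot _ _ _
  have r2 : Dt (p c) (p m) (p b) = Dt (p m) (p b) (p c) := by rw [← Sym.Dt_rot (p c)]
  obtain ⟨c1, c2, c3⟩ := Sym.co_of_rep (q := p m) (r := 1) (s := 0) (t := 0) hD.ne' (by simp)
  filter_upwards [Sym.eventually_pos (y := τ * S (p b) (p c) / Dt (p m) (p b) (p c)) one_pos,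
    self_mem_nhdsWithin] with t h1 ht
  refine ⟨?_, ?_, ?_⟩
  · rw [Sym.co_up, c1]; exact h1
  · rw [Sym.co_up, c2, zero_add, r1]; exact mul_pos ht (div_pos h.s3 hD)
  · rw [Sym.co_up, c3, zero_add, r2]; exact mul_pos ht (div_pos h.s1 hD)

theorem MidF.uniq (Φ : Fan G p F) {τ : ℝ} {m b c b' c' : V} (h : MidF F p τ m b c)
    (h' : MidF F p τ m b' c') : b' = b ∧ c' = c := by
  obtain ⟨t, h1, h2⟩ := ((h.ev Φ).and (h'.ev Φ)).exists
  rcases Φ.same _ _ _ _ _ _ h.f h'.f _ h1 h2 with ⟨-, e1, e2⟩ | ⟨e, -, -⟩ | ⟨e, -, -⟩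
  · exact ⟨e1, e2⟩
  · exact absurd e (Φ.ab _ _ _ h.f).ne
  · exact absurd e (Φ.ca h.f).ne'

theorem MidF.not_first (Φ : Fan G p F) {x y z m b c : V} (hn : F x y z)
    (hN : OC p x y z north) (h : MidF F p 1 m b c) : m ≠ x := by
  rintro rfl
  have hD := Φ.pos _ _ _ hn
  obtain ⟨c1, c2, c3⟩ := Sym.co_of_rep (q := p m) (r := 1) (s := 0) (t := 0) hD.ne' (by simp)
  have hcc : CC p m y z (p m) := ⟨by rw [c1]; exact zero_le_one, by rw [c2], by rw [c3]⟩
  obtain ⟨t, h1, ht⟩ := ((h.ev Φ).and self_mem_nhdsWithin).exists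
  have h2 := cc_up hcc hN (show (0 : ℝ) < t from ht)
  rw [mul_one] at h1
  have hb := h.s2
  rw [one_mul] at hb
  obtain ⟨k1, k2, k3⟩ := oc_north_pos hD hN
  rcases Φ.same _ _ _ _ _ _ hn h.f _ h2 h1 with ⟨-, e1, e2⟩ | ⟨e, -, -⟩ | ⟨e, -, -⟩
  · rw [e1, e2] at hb; linarith
  · exact (Φ.ab _ _ _ hn).ne e
  · exact (Φ.ca hn).ne' e

theorem MidF.not_corner (Φ : Fan G p F) {x y z m b c : V} (hn : F x y z)
    (hN : OC p x y z north) (h : MidF F p 1 m b c) : m ≠ x ∧ m ≠ y ∧ m ≠ z :=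
  ⟨h.not_first Φ hn hN, h.not_first Φ (Φ.rot _ _ _ hn) hN.rot,
    h.not_first Φ (Φ.rot _ _ _ (Φ.rot _ _ _ hn)) hN.rot.rot⟩

theorem MidF.not_oc (Φ : Fan G p F) {τ : ℝ} {m b c : V} (h : MidF F p τ m b c) :
    ¬ OC p m b c north := by
  intro hN
  obtain ⟨k1, k2, k3⟩ := oc_north_pos (Φ.pos _ _ _ h.f) hN
  have h1 := h.s1
  have h2 := h.s2
  rcases lt_or_ge 0 τ with hτ | hτ
  · have := mul_pos hτ k2; linarith
  · have := mul_nonneg_of_nonpos_of_nonpos hτ (neg_nonpos.2 k1.le)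
    linarith

theorem MidF.W {τ : ℝ} (hτ : τ = 1 ∨ τ = -1) {m b c : V} (h : MidF F p τ m b c) :
    τ * Sym.W p m b c < 0 := by
  have h1 := h.s1
  have h2 := h.s2
  have h3 := h.s3
  have k : (τ * S (p m) (p b)) * (τ * S (p b) (p c)) * (τ * S (p c) (p m)) < 0 :=
    mul_neg_of_neg_of_pos (mul_neg_of_pos_of_neg h1 h2) h3
  unfold Sym.W
  rcases hτ with rfl | rfl
  · have := inv_lt_zero.2 (by linarith : S (p m) (p b) * S (p b) (p c) * S (p c) (p m) < 0)
    linarith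
  · have := inv_pos.2 (by linarith : 0 < S (p m) (p b) * S (p b) (p c) * S (p c) (p m))
    linarith

end Pool.Agent.V11122.Cap
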